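import Mathlib

/-!
# Chambers of a finite configuration of lattice points
-/

set_option autoImplicit false

namespace Q47.GEO

open Finset

variable {J ι : Type*} [Fintype J] {p : ℕ}

/-- The rational vectors. -/
def rv (T : Fin p → J → ℕ) (l : Fin p) (j : J) : ℚ := T l j

/-- Integral left inverses. -/
theorem left_inv (T : Fin p → J → ℕ) (I : Finset (Fin p))
    (hI : LinearIndependent ℚ fun l : I => rv T l) :
    ∃ (M : ℕ) (Z : Fin p → J → ℤ), 1 ≤ M ∧
      ∀ l ∈ I, ∀ l' ∈ I, ∑ j, Z l j * (T l' j : ℤ) = if l = l' then (M : ℤ) else 0 := by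
  classical
  let f : (I → ℚ) →ₗ[ℚ] (J → ℚ) := Fintype.linearCombination ℚ fun l : I => rv T l
  have hf : LinearMap.ker f = ⊥ := by
    rw [LinearMap.ker_eq_bot]
    exact linearIndependent_iff_injective_fintypeLinearCombination.1 hI
  obtain ⟨g, hg⟩ := f.exists_leftInverse_of_injective hf
  have hgT : ∀ l : I, g (rv T l) = Pi.single l 1 := by
    intro l
    have h1 : f (Pi.single l 1) = rv T l := by
      simp only [f]
      rw [Fintype.linearCombination_apply_single, one_smul]
    rw [← h1]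
    exact congrFun (congrArg DFunLike.coe hg) (Pi.single l 1)
  let G : Fin p → J → ℚ := fun l j => if h : l ∈ I then g (Pi.single j 1) ⟨l, h⟩ else 0
  have hG : ∀ l ∈ I, ∀ l' ∈ I, ∑ j, G l j * (T l' j : ℚ) = if l = l' then 1 else 0 := by
    intro l hl l' hl'
    have h1 : g (rv T l') ⟨l, hl⟩ = ∑ j, G l j * (T l' j : ℚ) := by
      have h2 : rv T l' = ∑ j, (T l' j : ℚ) • (Pi.single j 1 : J → ℚ) := by
        funext k
        simp [rv, Finset.sum_apply, Pi.single_apply]
      rw [h2, map_sum, Finset.sum_apply]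
      refine Finset.sum_congr rfl fun j _ => ?_
      rw [map_smul, Pi.smul_apply, smul_eq_mul, mul_comm]
      simp only [G]
      rw [dif_pos hl]
    rw [← h1, hgT ⟨l', hl'⟩, Pi.single_apply]
    simp only [Subtype.mk.injEq]
  let M : ℕ := ∏ l, ∏ j, (G l j).den
  have hM : ∀ l j, ∃ z : ℤ, (z : ℚ) = M * G l j := by
    intro l j
    have h1 : (G l j).den ∣ M :=
      (Finset.dvd_prod_of_mem (fun j => (G l j).den) (Finset.mem_univ j)).trans
        (Finset.dvd_prod_of_mem (fun l => ∏ j, (G l j).den) (Finset.mem_univ l))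
    obtain ⟨k, hk⟩ := h1
    refine ⟨k * (G l j).num, ?_⟩
    have h2 : ((G l j).den : ℚ) * G l j = (G l j).num := by
      rw [mul_comm]
      exact Rat.mul_den_eq_num _
    rw [hk]
    push_cast
    rw [← h2]
    ring
  choose Z hZ using hM
  refine ⟨M, Z, Finset.prod_pos fun l _ => Finset.prod_pos fun j _ => (G l j).den_pos,
    fun l hl l' hl' => ?_⟩
  have h1 : ((∑ j, Z l j * (T l' j : ℤ) : ℤ) : ℚ) = ((if l = l' then (M : ℤ) else 0 : ℤ) : ℚ) := by
    push_cast
    simp only [hZ, mul_assoc]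
    rw [← Finset.mul_sum, hG l hl l' hl']
    simp
  exact_mod_cast h1

/-- The value of a combination. -/
theorem left_inv_apply {T : Fin p → J → ℕ} {I : Finset (Fin p)} {M : ℕ} {Z : Fin p → J → ℤ}
    (hZ : ∀ l ∈ I, ∀ l' ∈ I, ∑ j, Z l j * (T l' j : ℤ) = if l = l' then (M : ℤ) else 0)
    {r : Fin p → ℝ} (hr : ∀ l, l ∉ I → r l = 0) {l : Fin p} (hl : l ∈ I) :
    ∑ j, (Z l j : ℝ) * ∑ l', r l' * T l' j = M * r l := by
  have h1 : ∑ j, (Z l j : ℝ) * ∑ l', r l' * T l' j
      = ∑ l', r l' * ∑ j, (Z l j : ℝ) * T l' j := by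
    simp only [Finset.mul_sum]
    rw [Finset.sum_comm]
    exact Finset.sum_congr rfl fun l' _ => Finset.sum_congr rfl fun j _ => by ring
  rw [h1, Finset.sum_eq_single l]
  · have h2 := hZ l hl l hl
    rw [if_pos rfl] at h2
    have h3 : ∑ j, (Z l j : ℝ) * T l j = M := by exact_mod_cast h2
    rw [h3, mul_comm]
  · intro l' _ hl'
    by_cases h : l' ∈ I
    · have h2 := hZ l hl l' h
      rw [if_neg (Ne.symm hl')] at h2
      have h3 : ∑ j, (Z l j : ℝ) * T l' j = 0 := by exact_mod_cast h2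
      rw [h3, mul_zero]
    · rw [hr l' h, zero_mul]
  · simp

/-- The inequalities of a simplicial cone. -/
theorem walls (T : Fin p → J → ℕ) (I : Finset (Fin p))
    (hI : LinearIndependent ℚ fun l : I => rv T l) :
    ∃ W : Finset (J → ℤ),
      (∀ r : Fin p → ℝ, (∀ l, 0 ≤ r l) → (∀ l, l ∉ I → r l = 0) → ∀ w ∈ W,
        0 ≤ ∑ j, (w j : ℝ) * ∑ l, r l * T l j) ∧
      (∀ t : J → ℝ, (∀ w ∈ W, 0 ≤ ∑ j, (w j : ℝ) * t j) → ∃ r : Fin p → ℝ, (∀ l, 0 ≤ r l) ∧
        (∀ l, l ∉ I → r l = 0) ∧ ∀ j, t j = ∑ l, r l * T l j) ∧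
      ∀ r r' : Fin p → ℝ, (∀ l, l ∉ I → r l = 0) → (∀ l, l ∉ I → r' l = 0) →
        (∀ j, ∑ l, r l * (T l j : ℝ) = ∑ l, r' l * T l j) → r = r' := by
  classical
  obtain ⟨M, Z, hM, hZ⟩ := left_inv T I hI
  have hMR : (0 : ℝ) < M := by exact_mod_cast hM
  let w' : J → J → ℤ := fun j' j => (if j = j' then (M : ℤ) else 0) - ∑ l ∈ I, Z l j * (T l j' : ℤ)
  have hw' : ∀ (t : J → ℝ) j', ∑ j, (w' j' j : ℝ) * t j
      = M * t j' - ∑ l ∈ I, (∑ j, (Z l j : ℝ) * t j) * T l j' := by
    intro t j'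
    simp only [w']
    push_cast
    simp only [sub_mul, Finset.sum_sub_distrib, ite_mul, zero_mul, Finset.sum_ite_eq',
      Finset.mem_univ, if_true, Finset.sum_mul]
    congr 1
    rw [Finset.sum_comm]
    exact Finset.sum_congr rfl fun l _ => Finset.sum_congr rfl fun j _ => by ring
  refine ⟨I.image Z ∪ (Finset.univ.image w' ∪ Finset.univ.image fun j' => -w' j'), ?_, ?_, ?_⟩
  · intro r hr hrI w hw
    have h0 : ∀ j', ∑ j, (w' j' j : ℝ) * ∑ l, r l * T l j = 0 := by
      intro j'
      rw [hw' (fun j => ∑ l, r l * T l j) j']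
      have h1 : ∑ l ∈ I, (∑ j, (Z l j : ℝ) * ∑ l', r l' * T l' j) * T l j'
          = ∑ l ∈ I, (M * r l) * T l j' :=
        Finset.sum_congr rfl fun l hl => by rw [left_inv_apply hZ hrI hl]
      have h2 : ∑ l, r l * (T l j' : ℝ) = ∑ l ∈ I, r l * T l j' :=
        (Finset.sum_subset (Finset.subset_univ I) fun l _ hl => by rw [hrI l hl, zero_mul]).symm
      rw [h1, h2, Finset.mul_sum, sub_eq_zero]
      exact Finset.sum_congr rfl fun l _ => by ring
    rcases Finset.mem_union.1 hw with hw | hw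
    · obtain ⟨l, hl, rfl⟩ := Finset.mem_image.1 hw
      rw [left_inv_apply hZ hrI hl]
      exact mul_nonneg hMR.le (hr l)
    rcases Finset.mem_union.1 hw with hw | hw
    · obtain ⟨j', -, rfl⟩ := Finset.mem_image.1 hw
      rw [h0]
    · obtain ⟨j', -, rfl⟩ := Finset.mem_image.1 hw
      have h1 : ∑ j, (((-w' j') j : ℤ) : ℝ) * ∑ l, r l * T l j
          = -∑ j, (w' j' j : ℝ) * ∑ l, r l * T l j := by
        rw [← Finset.sum_neg_distrib]
        refine Finset.sum_congr rfl fun j _ => ?_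
        rw [Pi.neg_apply]
        push_cast
        ring
      rw [h1, h0, neg_zero]
  · intro t ht
    refine ⟨fun l => if l ∈ I then (M : ℝ)⁻¹ * ∑ j, (Z l j : ℝ) * t j else 0, fun l => ?_,
      fun l hl => if_neg hl, fun j' => ?_⟩
    · beta_reduce
      split_ifs with hl
      · exact mul_nonneg (inv_nonneg.2 hMR.le) (ht _ (Finset.mem_union_left _
          (Finset.mem_image_of_mem _ hl)))
      · exact le_rfl
    · have h1 := ht _ (Finset.mem_union_right _ (Finset.mem_union_left _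
        (Finset.mem_image_of_mem w' (Finset.mem_univ j'))))
      have h2 := ht _ (Finset.mem_union_right _ (Finset.mem_union_right _
        (Finset.mem_image_of_mem (fun j' => -w' j') (Finset.mem_univ j'))))
      have h3 : ∑ j, (((-w' j') j : ℤ) : ℝ) * t j = -∑ j, (w' j' j : ℝ) * t j := by
        rw [← Finset.sum_neg_distrib]
        refine Finset.sum_congr rfl fun j _ => ?_
        rw [Pi.neg_apply]
        push_cast
        ring
      rw [h3] at h2
      have h4 : ∑ j, (w' j' j : ℝ) * t j = 0 := le_antisymm (by linarith) h1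
      rw [hw'] at h4
      simp only [ite_mul, zero_mul]
      rw [Finset.sum_ite_mem, Finset.univ_inter]
      have h5 : ∑ l ∈ I, (M : ℝ)⁻¹ * (∑ j, (Z l j : ℝ) * t j) * T l j'
          = (M : ℝ)⁻¹ * ∑ l ∈ I, (∑ j, (Z l j : ℝ) * t j) * T l j' := by
        rw [Finset.mul_sum]
        exact Finset.sum_congr rfl fun l _ => by ring
      rw [h5]
      field_simp
      linarith
  · intro r r' hr hr' h
    funext l
    by_cases hl : l ∈ I
    · have h1 := left_inv_apply hZ hr hl
      have h2 := left_inv_apply hZ hr' hl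
      simp only [h] at h1
      rw [h1] at h2
      exact mul_left_cancel₀ hMR.ne' h2
    · rw [hr l hl, hr' l hl]

/-- One step of the reduction of the support. -/
theorem step {r c : Fin p → ℝ} (hr : ∀ l, 0 ≤ r l) (hc : ∀ l, r l = 0 → c l = 0)
    (hpos : ∃ l, 0 < c l) : ∃ τ : ℝ, 0 < τ ∧ (∀ l, 0 ≤ r l - τ * c l) ∧
      (Finset.univ.filter fun l => r l - τ * c l ≠ 0).card
        < (Finset.univ.filter fun l => r l ≠ 0).card := by
  classical
  obtain ⟨l₀, hl₀⟩ := hpos
  obtain ⟨l₁, hl₁, hmin⟩ := Finset.exists_min_image (Finset.univ.filter fun l => 0 < c l)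
    (fun l => r l / c l) ⟨l₀, by simpa using hl₀⟩
  have hc1 : 0 < c l₁ := (Finset.mem_filter.1 hl₁).2
  have hr1 : 0 < r l₁ := lt_of_le_of_ne (hr l₁) fun h => hc1.ne' (hc l₁ h.symm)
  refine ⟨r l₁ / c l₁, div_pos hr1 hc1, fun l => ?_, ?_⟩
  · by_cases hl : 0 < c l
    · have h1 := hmin l (by simpa using hl)
      rw [sub_nonneg]
      calc r l₁ / c l₁ * c l ≤ r l / c l * c l := mul_le_mul_of_nonneg_right h1 hl.le
        _ = r l := div_mul_cancel₀ _ hl.ne'
    · have h1 : r l₁ / c l₁ * c l ≤ 0 :=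
        mul_nonpos_of_nonneg_of_nonpos (div_pos hr1 hc1).le (not_lt.1 hl)
      linarith [hr l]
  · refine Finset.card_lt_card ⟨fun l hl => ?_, fun h => ?_⟩
    · rw [Finset.mem_filter] at hl ⊢
      refine ⟨hl.1, fun h0 => hl.2 ?_⟩
      rw [h0, hc l h0]
      ring
    · have h1 : l₁ ∈ Finset.univ.filter fun l => r l ≠ 0 := by
        simpa using hr1.ne'
      have h2 := (Finset.mem_filter.1 (h h1)).2
      apply h2
      rw [div_mul_cancel₀ _ hc1.ne', sub_self]

/-- Reduction to linearly independent supports. -/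
theorem reduce {T : Fin p → J → ℕ} (hT : ∀ l, T l ≠ 0) (a : Fin p → ι → ℕ) {t : J → ℝ}
    {C : Set (ι → ℝ)} (hC : Convex ℝ C)
    (h : ∀ (r : Fin p → ℝ) (I : Finset (Fin p)), (∀ l, 0 ≤ r l) → (∀ l, l ∉ I → r l = 0) →
      (LinearIndependent ℚ fun l : I => rv T l) → (∀ j, t j = ∑ l, r l * T l j) →
        (fun i => ∑ l, r l * (a l i : ℝ)) ∈ C) :
    ∀ (N : ℕ) (r : Fin p → ℝ), (Finset.univ.filter fun l => r l ≠ 0).card ≤ N → (∀ l, 0 ≤ r l) →
      (∀ j, t j = ∑ l, r l * T l j) → (fun i => ∑ l, r l * (a l i : ℝ)) ∈ C := by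
  classical
  intro N
  induction N with
  | zero =>
    intro r hN hr ht
    refine h r (Finset.univ.filter fun l => r l ≠ 0) hr (fun l hl => ?_) ?_ ht
    · by_contra h0
      exact hl (by simpa using h0)
    · have : IsEmpty (Finset.univ.filter fun l => r l ≠ 0) := by
        rw [Finset.isEmpty_coe_sort, ← Finset.card_eq_zero]
        omega
      exact linearIndependent_empty_type
  | succ N ih =>
    intro r hN hr ht
    by_cases hI : LinearIndependent ℚ fun l : (Finset.univ.filter fun l => r l ≠ 0) => rv T l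
    · refine h r _ hr (fun l hl => ?_) hI ht
      by_contra h0
      exact hl (by simpa using h0)
    · rw [Fintype.linearIndependent_iff] at hI
      push Not at hI
      obtain ⟨g, hg, l₀, hl₀⟩ := hI
      let c : Fin p → ℝ := fun l =>
        if h : l ∈ Finset.univ.filter fun l => r l ≠ 0 then ((g ⟨l, h⟩ : ℚ) : ℝ) else 0
      have hc0 : ∀ l, r l = 0 → c l = 0 := by
        intro l hl
        simp only [c]
        rw [dif_neg]
        simp [hl]
      have hcne : c l₀ ≠ 0 := by
        simp only [c]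
        rw [dif_pos l₀.2]
        exact_mod_cast hl₀
      have hcT : ∀ j, ∑ l, c l * (T l j : ℝ) = 0 := by
        intro j
        have h1 := congrFun hg j
        rw [Finset.sum_apply] at h1
        have h2 : ∑ l, c l * (T l j : ℝ)
            = ∑ l : (Finset.univ.filter fun l => r l ≠ 0), ((g l : ℚ) : ℝ) * (T l j : ℝ) := by
          rw [← Finset.sum_subset (Finset.subset_univ (Finset.univ.filter fun l => r l ≠ 0))
            (fun l _ hl => by simp only [c]; rw [dif_neg hl, zero_mul]), ← Finset.sum_coe_sort]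
          refine Finset.sum_congr rfl fun l _ => ?_
          simp only [c]
          rw [dif_pos l.2]
        rw [h2]
        have h3 : ((∑ l : (Finset.univ.filter fun l => r l ≠ 0), g l * (T l j : ℚ) : ℚ) : ℝ) = 0 := by
          have h4 : ∑ l : (Finset.univ.filter fun l => r l ≠ 0), g l * (T l j : ℚ) = 0 := h1
          rw [h4]
          norm_num
        push_cast at h3
        exact h3
      have hTpos : ∀ l, 0 < ∑ j, (T l j : ℝ) := by
        intro l
        have h1 : ∃ j, T l j ≠ 0 := by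
          by_contra h0
          push Not at h0
          exact hT l (funext h0)
        obtain ⟨j, hj⟩ := h1
        refine Finset.sum_pos' (fun j _ => Nat.cast_nonneg _) ⟨j, Finset.mem_univ j, ?_⟩
        positivity
      -- both signs occur
      have hsign : ∀ c : Fin p → ℝ, (∃ l, c l ≠ 0) → (∀ j, ∑ l, c l * (T l j : ℝ) = 0) →
          ∃ l, 0 < c l := by
        intro c ⟨l₀, hl₀⟩ hc
        by_contra hneg
        push Not at hneg
        have h1 : ∑ l, (-c l) * ∑ j, (T l j : ℝ) = 0 := by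
          have h2 : ∑ l, (-c l) * ∑ j, (T l j : ℝ) = -∑ j, ∑ l, c l * (T l j : ℝ) := by
            rw [Finset.sum_comm, ← Finset.sum_neg_distrib]
            refine Finset.sum_congr rfl fun l _ => ?_
            rw [neg_mul, Finset.mul_sum]
          rw [h2]
          simp [hc]
        have h2 := (Finset.sum_eq_zero_iff_of_nonneg fun l _ =>
          mul_nonneg (neg_nonneg.2 (hneg l)) (hTpos l).le).1 h1 l₀ (Finset.mem_univ _)
        rcases mul_eq_zero.1 h2 with h3 | h3
        · exact hl₀ (neg_eq_zero.1 h3)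
        · exact (hTpos l₀).ne' h3
      obtain ⟨τ, hτ, hτ1, hτ2⟩ := step hr hc0 (hsign c ⟨l₀, hcne⟩ hcT)
      obtain ⟨σ, hσ, hσ1, hσ2⟩ := step (c := fun l => -c l) hr
        (fun l hl => by rw [hc0 l hl, neg_zero])
        (hsign (fun l => -c l) ⟨l₀, neg_ne_zero.2 hcne⟩ fun j => by
          simp only [neg_mul, Finset.sum_neg_distrib, hcT, neg_zero])
      have hT' : ∀ (x : ℝ) j, t j = ∑ l, (r l - x * c l) * T l j := by
        intro x j
        simp only [sub_mul, Finset.sum_sub_distrib, mul_assoc]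
        rw [← Finset.mul_sum, hcT, mul_zero, sub_zero]
        exact ht j
      have h1 := ih (fun l => r l - τ * c l) (by omega) hτ1 (hT' τ)
      have h2 := ih (fun l => r l - σ * -c l) (by omega) hσ1 fun j => by
        have := hT' (-σ) j
        rw [this]
        exact Finset.sum_congr rfl fun l _ => by ring
      have h3 : (fun i => ∑ l, r l * (a l i : ℝ))
          = (σ / (τ + σ)) • (fun i => ∑ l, (r l - τ * c l) * (a l i : ℝ))
            + (τ / (τ + σ)) • fun i => ∑ l, (r l - σ * -c l) * (a l i : ℝ) := by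
        funext i
        simp only [Pi.add_apply, Pi.smul_apply, smul_eq_mul, Finset.mul_sum]
        rw [← Finset.sum_add_distrib]
        refine Finset.sum_congr rfl fun l _ => ?_
        have : τ + σ ≠ 0 := (add_pos hτ hσ).ne'
        field_simp
        ring
      rw [h3]
      exact hC h1 h2 (div_pos hσ (add_pos hτ hσ)).le (div_pos hτ (add_pos hτ hσ)).le
        (by rw [← add_div, add_comm σ τ, div_self (add_pos hτ hσ).ne'])

/-- The fibres of the projection of the cone. -/
def fib (T : Fin p → J → ℕ) (a : Fin p → ι → ℕ) (t : J → ℝ) : Set (ι → ℝ) :=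
  {β | ∃ r : Fin p → ℝ, (∀ l, 0 ≤ r l) ∧ (∀ j, t j = ∑ l, r l * T l j) ∧
    ∀ i, β i = ∑ l, r l * (a l i : ℝ)}

omit [Fintype J] in
theorem fib_convex (T : Fin p → J → ℕ) (a : Fin p → ι → ℕ) (t : J → ℝ) :
    Convex ℝ (fib T a t) := by
  rintro β ⟨r, hr, ht, hβ⟩ β' ⟨r', hr', ht', hβ'⟩ x y hx hy hxy
  refine ⟨fun l => x * r l + y * r' l, fun l => add_nonneg (mul_nonneg hx (hr l))
    (mul_nonneg hy (hr' l)), fun j => ?_, fun i => ?_⟩
  · simp only [add_mul, Finset.sum_add_distrib, mul_assoc, ← Finset.mul_sum]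
    rw [← ht j, ← ht' j, ← add_mul, hxy, one_mul]
  · simp only [Pi.add_apply, Pi.smul_apply, smul_eq_mul, add_mul, Finset.sum_add_distrib,
      mul_assoc, ← Finset.mul_sum]
    rw [← hβ i, ← hβ' i]

/-- The chambers. -/
theorem chambers (T : Fin p → J → ℕ) (hT : ∀ l, T l ≠ 0) (a : Fin p → ι → ℕ) :
    ∃ W : Finset (J → ℤ), ∀ t t' : J → ℝ,
      (∀ w ∈ W, 0 ≤ (∑ j, (w j : ℝ) * t j) * ∑ j, (w j : ℝ) * t' j) →
        fib T a (fun j => t j + t' j) = {β | ∃ b ∈ fib T a t, ∃ b' ∈ fib T a t', β = b + b'} := by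
  classical
  choose! W hW1 hW2 hW3 using walls T
  refine ⟨(Finset.univ.powerset.filter fun I : Finset (Fin p) =>
    LinearIndependent ℚ fun l : I => rv T l).biUnion W, fun t t' htt => ?_⟩
  apply Set.Subset.antisymm
  · rintro β ⟨r, hr, ht, hβ⟩
    have hconv : Convex ℝ {β | ∃ b ∈ fib T a t, ∃ b' ∈ fib T a t', β = b + b'} := by
      rintro _ ⟨b, hb, b', hb', rfl⟩ _ ⟨e, he, e', he', rfl⟩ x y hx hy hxy
      refine ⟨x • b + y • e, fib_convex T a t hb he hx hy hxy, x • b' + y • e',
        fib_convex T a t' hb' he' hx hy hxy, ?_⟩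
      rw [smul_add, smul_add]
      abel
    have h1 := reduce hT a hconv (t := fun j => t j + t' j) (fun r I hr hrI hI hrt => by
      have hw : ∀ w ∈ W I, 0 ≤ ∑ j, (w j : ℝ) * t j ∧ 0 ≤ ∑ j, (w j : ℝ) * t' j := by
        intro w hw
        have h1 := hW1 I hI r hr hrI w hw
        simp only [← hrt] at h1
        simp only [mul_add, Finset.sum_add_distrib] at h1
        have h2 := htt w (Finset.mem_biUnion.2 ⟨I, Finset.mem_filter.2
          ⟨Finset.mem_powerset.2 (Finset.subset_univ I), hI⟩, hw⟩)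
        rcases le_or_gt 0 (∑ j, (w j : ℝ) * t j) with h3 | h3
        · refine ⟨h3, ?_⟩
          by_contra h4
          push Not at h4
          have h5 : 0 < ∑ j, (w j : ℝ) * t j := by linarith
          exact absurd h2 (not_le.2 (mul_neg_of_pos_of_neg h5 h4))
        · have h4 : 0 < ∑ j, (w j : ℝ) * t' j := by linarith
          exact absurd h2 (not_le.2 (mul_neg_of_neg_of_pos h3 h4))
      obtain ⟨r1, hr1, hr1I, hr1t⟩ := hW2 I hI t fun w hw' => (hw w hw').1
      obtain ⟨r2, hr2, hr2I, hr2t⟩ := hW2 I hI t' fun w hw' => (hw w hw').2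
      have h2 : r = fun l => r1 l + r2 l := by
        refine hW3 I hI r _ hrI (fun l hl => by rw [hr1I l hl, hr2I l hl, add_zero]) fun j => ?_
        simp only [add_mul, Finset.sum_add_distrib]
        rw [← hrt j, ← hr1t j, ← hr2t j]
      refine ⟨fun i => ∑ l, r1 l * (a l i : ℝ), ⟨r1, hr1, hr1t, fun i => rfl⟩,
        fun i => ∑ l, r2 l * (a l i : ℝ), ⟨r2, hr2, hr2t, fun i => rfl⟩, ?_⟩
      rw [h2]
      funext i
      simp only [add_mul, Finset.sum_add_distrib, Pi.add_apply]) _ r le_rfl hr ht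
    have h2 : β = fun i => ∑ l, r l * (a l i : ℝ) := funext hβ
    rw [h2]
    exact h1
  · rintro _ ⟨b, ⟨r, hr, ht, hb⟩, b', ⟨r', hr', ht', hb'⟩, rfl⟩
    refine ⟨fun l => r l + r' l, fun l => add_nonneg (hr l) (hr' l), fun j => ?_, fun i => ?_⟩
    · simp only [add_mul, Finset.sum_add_distrib]
      rw [← ht j, ← ht' j]
    · simp only [add_mul, Finset.sum_add_distrib, Pi.add_apply]
      rw [← hb i, ← hb' i]

/-- Integral points. -/
theorem integral {T : Fin p → J → ℕ} (hT : ∀ l, T l ≠ 0) {t : J → ℕ} {r : Fin p → ℝ}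
    (hr : ∀ l, 0 ≤ r l) (ht : ∀ j, (t j : ℝ) = ∑ l, r l * T l j) :
    ∃ M : ℕ, 1 ≤ M ∧ ∃ μ : Fin p → ℕ, ∀ j, M * t j = ∑ l, μ l * T l j := by
  classical
  by_contra hcon
  have h1 := reduce hT (fun _ (_ : Unit) => 0) (C := (∅ : Set (Unit → ℝ))) convex_empty
    (t := fun j => (t j : ℝ)) (fun r I hr hrI hI hrt => by
      exfalso
      apply hcon
      obtain ⟨M, Z, hM, hZ⟩ := left_inv T I hI
      have hMR : (0 : ℝ) < M := by exact_mod_cast hM
      have h2 : ∀ l, ∃ μ : ℕ, (μ : ℝ) = M * r l := by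
        intro l
        by_cases hl : l ∈ I
        · have h3 := left_inv_apply hZ hrI hl
          simp only [← hrt] at h3
          have h4 : ((∑ j, Z l j * (t j : ℤ) : ℤ) : ℝ) = M * r l := by
            rw [← h3]
            push_cast
            rfl
          have h5 : 0 ≤ ∑ j, Z l j * (t j : ℤ) := by
            have h6 : (0 : ℝ) ≤ ((∑ j, Z l j * (t j : ℤ) : ℤ) : ℝ) := by
              rw [h4]
              exact mul_nonneg hMR.le (hr l)
            exact_mod_cast h6
          obtain ⟨μ, hμ⟩ := Int.eq_ofNat_of_zero_le h5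
          refine ⟨μ, ?_⟩
          rw [← h4, hμ]
          push_cast
          rfl
        · exact ⟨0, by rw [hrI l hl]; simp⟩
      choose μ hμ using h2
      refine ⟨M, hM, μ, fun j => ?_⟩
      have h3 : ((M * t j : ℕ) : ℝ) = ((∑ l, μ l * T l j : ℕ) : ℝ) := by
        push_cast
        rw [hrt j, Finset.mul_sum]
        exact Finset.sum_congr rfl fun l _ => by rw [hμ]; ring
      exact_mod_cast h3) _ r le_rfl hr ht
  exact h1

end Q47.GEO
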