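import Pool.Agent.Q47.GEO.Main
import Pool.Agent.Q47.GEO.Cham

/-!
# Several adjoint divisors on a toric bundle: the theorem
-/

set_option autoImplicit false

namespace Q47.GEO

open Pool.Agent.W594.SYZ2 Pool.Agent.W594.SYZ2.TQ Pool.Agent.TH735.AQ MvPolynomial Q47.KN Q47.EB
open Q47.TB Q47.TK Filter

/-- Multiples near a semigroup. -/
theorem dickson {J : Type*} {p : ℕ} (T : Fin p → J → ℕ) (W : Finset (J → ℤ)) (t : J → ℕ)
    (h : ∃ᶠ k : ℕ in atTop, ∃ w ∈ W, ∃ μ : Fin p → ℕ, ∀ j,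
      ((k * t j : ℕ) : ℤ) = ∑ l, (μ l : ℤ) * T l j + w j) :
    ∃ K : ℕ, 1 ≤ K ∧ ∃ ν : Fin p → ℕ, ∀ j, K * t j = ∑ l, ν l * T l j := by
  obtain ⟨φ, hφ, hφ'⟩ := extraction_of_frequently_atTop h
  choose w hw μ hμ using hφ'
  have h1 : WellQuasiOrdered fun x y : W × (Fin p → ℕ) => x.1 = y.1 ∧ x.2 ≤ y.2 :=
    WellQuasiOrdered.prod (r := fun x y : W => x = y) (s := fun x y : Fin p → ℕ => x ≤ y)
      (Finite.wellQuasiOrdered _) wellQuasiOrdered_le
  obtain ⟨i, k, hik, h2, h3⟩ := h1 fun i => (⟨w i, hw i⟩, μ i)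
  have h2' : w i = w k := congrArg Subtype.val h2
  have h3' : ∀ l, μ i l ≤ μ k l := h3
  have h4 := hφ hik
  refine ⟨φ k - φ i, by omega, fun l => μ k l - μ i l, fun j => ?_⟩
  have h5 := hμ i j
  have h6 := hμ k j
  rw [h2'] at h5
  have h7 : (((φ k - φ i) * t j : ℕ) : ℤ) = ((∑ l, (μ k l - μ i l) * T l j : ℕ) : ℤ) := by
    push_cast
    rw [Nat.cast_sub h4.le]
    have h8 : ∑ l, ((μ k l - μ i l : ℕ) : ℤ) * (T l j : ℤ)
        = ∑ l, (μ k l : ℤ) * T l j - ∑ l, (μ i l : ℤ) * T l j := by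
      rw [← Finset.sum_sub_distrib]
      refine Finset.sum_congr rfl fun l _ => ?_
      rw [Nat.cast_sub (h3' l)]
      ring
    rw [h8]
    push_cast at h5 h6
    rw [sub_mul, h5, h6]
    ring
  exact_mod_cast h7

variable {V : Type*} [NormedAddCommGroup V] [NormedSpace ℂ V] {Γ : Subgroup (V ≃ᵃ[ℂ] V)}
  {ι : Type*} [Fintype ι] {n s : ℕ}

/-- Semiampleness of the classes of the semigroup. -/
theorem secs_of_gens {c : ι → LineBundle Γ} {L : Fin (s + 1) → LineBundle Γ} {p : ℕ}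
    {T : Fin p → Fin (s + 1) → ℕ} {a : Fin p → ι → ℕ}
    (h : ∀ l, ∃ E : ℕ, 1 ≤ E ∧ ∀ v₀, ∃ f : V → ℂ, f v₀ ≠ 0 ∧ Differentiable ℂ f ∧
      ∀ (γ : Γ) (v : V), f ((γ : V ≃ᵃ[ℂ] V) v) = eb c L (T l) (a l) γ v ^ E * f v) :
    ∃ N : ℕ, 1 ≤ N ∧ ∀ (μ : Fin p → ℕ) (v₀ : V), ∃ f : V → ℂ, f v₀ ≠ 0 ∧ Differentiable ℂ f ∧
      ∀ (γ : Γ) (v : V), f ((γ : V ≃ᵃ[ℂ] V) v)
        = eb c L (fun j => ∑ l, μ l * T l j) (fun i => ∑ l, μ l * a l i) γ v ^ N * f v := by
  classical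
  choose E hE hf using h
  choose f hf0 hfd hfe using hf
  have hdiv : ∀ l, ∃ k, (∏ l, E l) = E l * k := fun l =>
    Finset.dvd_prod_of_mem E (Finset.mem_univ l)
  choose k hk using hdiv
  refine ⟨∏ l, E l, Nat.succ_le_of_lt (Finset.prod_pos fun l _ => hE l),
    fun μ v₀ => ⟨fun v => ∏ l, f l v₀ v ^ (k l * μ l),
    Finset.prod_ne_zero_iff.2 fun l _ => pow_ne_zero _ (hf0 l v₀), ?_, fun γ v => ?_⟩⟩
  · exact prod_diff Finset.univ (fun l v => f l v₀ v ^ (k l * μ l)) fun l => (hfd l v₀).pow _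
  · rw [eb_comb, ← Finset.prod_pow, ← Finset.prod_mul_distrib]
    refine Finset.prod_congr rfl fun l _ => ?_
    rw [hfe, mul_pow]
    congr 1
    rw [← pow_mul, ← pow_mul, hk l]
    congr 1
    ring

variable [FiniteDimensional ℂ V]

/-- The theorem. -/
theorem geo (hΓ : IsTorusQuotient Γ) {ρ : V → ℂ} (hρ : IsRamification Γ ρ)
    {u : ι → Fin n → ℤ} {S : Set (Set ι)} (hS : IsSmoothFan u S) (hs : 1 ≤ s)
    {c : ι → LineBundle Γ} {Hc : ι → V → V → ℂ} (hc : ∀ i, IsChernForm (c i) (Hc i))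
    {m : ℕ} {d : Fin (s + 1) → ι → ℤ} {F : Fin (s + 1) → V → MvPolynomial ι ℂ}
    {L : Fin (s + 1) → LineBundle Γ} {H : Fin (s + 1) → V → V → ℂ}
    (hL : ∀ j, IsChernForm (L j) (H j))
    (hF : ∀ j, TB.IsLogPluricanonical u c m ρ (d j) (F j) (L j))
    (T₀ : Fin (s + 1) → Finset (ι →₀ ℕ)) (hT : ∀ j, ∀ α ∈ T₀ j, ∃ v, coeff α (F j v) ≠ 0)
    (hw : ∀ j, ∀ a : ι → ℕ, {i | a i ≠ 0} ∈ S → ∃ α ∈ T₀ j, ∑ i, a i * α i ≤ m * ∑ i, a i)
    {D : Fin (s + 1) → ι → ℤ} (hD : D = fun j i => d j i - m) :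
    ∃ (p : ℕ) (T : Fin p → Fin (s + 1) → ℕ) (a : Fin p → ι → ℕ),
      (∀ l, T l ≠ 0 ∧ (T l, a l) ∈ Q u D H Hc) ∧
      (∀ t α, (t, α) ∈ Q u D H Hc →
        ∃ μ : Fin p → ℕ, (∀ j, t j = ∑ l, μ l * T l j) ∧ ∀ i, α i = ∑ l, μ l * a l i) ∧
      (∀ t : Fin (s + 1) → ℝ, (∀ j, 0 ≤ t j) → P u D H Hc t = fib T a t) ∧
      (∃ N : ℕ, 1 ≤ N ∧ ∀ t α, (t, α) ∈ Q u D H Hc → ∀ v₀, ∃ f : V → ℂ, f v₀ ≠ 0 ∧
        IsSection u c (fun i => N * ∑ j, (t j : ℤ) * D j i)
          (fun γ v => (∏ j, (L j).e γ v ^ t j) ^ N)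
          fun v => monomial (Finsupp.equivFunOnFinite.symm fun i => N * α i) (f v)) ∧
      ∀ (A : LineBundle Γ) (HA : V → V → ℂ), IsChernForm A HA → ∀ b : ι → ℤ,
        ∃ W : Finset ((Fin (s + 1) → ℤ) × (ι → ℤ)),
          ∀ (t : Fin (s + 1) → ℕ) (G : V → MvPolynomial ι ℂ),
            IsSection u c (fun i => ∑ j, (t j : ℤ) * D j i + b i)
              (fun γ v => (∏ j, (L j).e γ v ^ t j) * A.e γ v) G → ∀ v α, coeff α (G v) ≠ 0 →
                ∃ w ∈ W, ∃ μ : Fin p → ℕ, (∀ j, (t j : ℤ) = ∑ l, (μ l : ℤ) * T l j + w.1 j) ∧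
                  ∀ i, (α i : ℤ) = ∑ l, (μ l : ℤ) * a l i + w.2 i := by
  classical
  obtain ⟨p, x, h1, h2, h3, h4⟩ := core hΓ hρ hS hs hc hL hF T₀ hT hw hD
  let T : Fin p → Fin (s + 1) → ℕ := fun l j => (al (uu u D) (dx D) (x l) (Sum.inr j)).toNat
  let a : Fin p → ι → ℕ := fun l i => (al (uu u D) (dx D) (x l) (Sum.inl i)).toNat
  have hTz : ∀ l j, (T l j : ℤ) = al (uu u D) (dx D) (x l) (Sum.inr j) := fun l j =>
    Int.toNat_of_nonneg ((h1 l).2.1 _)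
  have haz : ∀ l i, (a l i : ℤ) = al (uu u D) (dx D) (x l) (Sum.inl i) := fun l i =>
    Int.toNat_of_nonneg ((h1 l).2.1 _)
  have hTc : ∀ l j, (T l j : ℂ) = ((al (uu u D) (dx D) (x l) (Sum.inr j) : ℤ) : ℂ) := fun l j => by
    rw [← hTz]
    push_cast
    rfl
  have hac : ∀ l i, (a l i : ℂ) = ((al (uu u D) (dx D) (x l) (Sum.inl i) : ℤ) : ℂ) := fun l j => by
    rw [← haz]
    push_cast
    rfl
  have hfst : ∀ l, (x l).1 = ∑ j, (T l j : ℤ) := fun l => by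
    rw [fst_eq u D (x l)]
    exact Finset.sum_congr rfl fun j _ => (hTz l j).symm
  have hQ : ∀ l, (T l, a l) ∈ Q u D H Hc := by
    intro l
    refine ⟨⟨fun k => (x l).2 (Fin.castAdd s k), fun i => ?_⟩, fun v => ?_⟩
    · change (a l i : ℤ) = ∑ j, (T l j : ℤ) * D j i + ∑ k, (x l).2 (Fin.castAdd s k) * u i k
      simp only [haz, hTz]
      exact al_inl_eq u D (x l) i
    · have h5 := (h1 l).2.2.1 v
      rw [form_eq] at h5
      change 0 ≤ (∑ j, (T l j : ℂ) * H j v v - ∑ i, (a l i : ℂ) * Hc i v v).re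
      simp only [hTc, hac]
      exact h5
  have hT0 : ∀ l, T l ≠ 0 := by
    intro l h0
    have h5 := (h1 l).1
    rw [hfst l, h0] at h5
    simp at h5
  have hcomb : ∀ (μ : Fin p → ℕ) (i : ι ⊕ Fin (s + 1)), al (uu u D) (dx D) (∑ l, μ l • x l) i
      = ∑ l, (μ l : ℤ) * al (uu u D) (dx D) (x l) i := fun μ i =>
    al_comb (uu u D) (dx D) Finset.univ μ x i
  have hgen : ∀ t α, (t, α) ∈ Q u D H Hc →
      ∃ μ : Fin p → ℕ, (∀ j, t j = ∑ l, μ l * T l j) ∧ ∀ i, α i = ∑ l, μ l * a l i := by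
    rintro t α ⟨⟨q, hq⟩, hn⟩
    have e1 : ∀ i, al (uu u D) (dx D) (pt (fun j => (t j : ℤ)) q) (Sum.inl i) = α i := fun i => by
      rw [al_pt_inl]
      exact (hq i).symm
    have e2 : ∀ j, al (uu u D) (dx D) (pt (fun j => (t j : ℤ)) q) (Sum.inr j) = t j := fun j =>
      al_pt_inr _ _ _ _ _
    obtain ⟨μ, hμ⟩ := h2 (pt (fun j => (t j : ℤ)) q) (by
      rintro (i | j)
      · rw [e1]
        exact Int.natCast_nonneg _
      · rw [e2]
        exact Int.natCast_nonneg _) (fun v => by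
        rw [form_eq]
        simp only [e1, e2]
        have h5 := hn v
        push_cast
        exact h5)
    refine ⟨μ, fun j => ?_, fun i => ?_⟩
    · have h5 := e2 j
      rw [hμ, hcomb] at h5
      simp only [← hTz] at h5
      exact_mod_cast h5.symm
    · have h5 := e1 i
      rw [hμ, hcomb] at h5
      simp only [← haz] at h5
      exact_mod_cast h5.symm
  refine ⟨p, T, a, fun l => ⟨hT0 l, hQ l⟩, hgen, fun t ht => ?_, ?_, fun A HA hA b => ?_⟩
  · apply Set.Subset.antisymm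
    · intro β hβ
      rcases (Finset.sum_nonneg fun j _ => ht j).eq_or_lt with h0 | hτ
      · have ht0 : ∀ j, t j = 0 := fun j =>
          (Finset.sum_eq_zero_iff_of_nonneg fun j _ => ht j).1 h0.symm j (Finset.mem_univ j)
        obtain ⟨hβ0, ⟨q, hq⟩, -⟩ := hβ
        have hq' : ∀ i, β i = ∑ k, q k * u i k := by
          intro i
          rw [hq i]
          simp [ht0]
        refine ⟨fun _ => 0, fun _ => le_rfl, fun j => by simp [ht0], fun i => ?_⟩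
        rw [eq_zero_real hS hβ0 hq' i]
        simp
      · obtain ⟨r, hr, hrβ⟩ := h3 _ (mem_pol ht hτ hβ)
        have hτ0 := hτ.ne'
        refine ⟨fun l => (∑ j, t j) * r l, fun l => mul_nonneg hτ.le (hr l), fun j => ?_, fun i => ?_⟩
        · have h5 := hrβ (Sum.inr j)
          simp only [Sum.elim_inr] at h5
          have h6 : ∀ l, (T l j : ℝ) = ((al (uu u D) (dx D) (x l) (Sum.inr j) : ℤ) : ℝ) := fun l => by
            rw [← hTz]
            push_cast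
            rfl
          simp only [h6, mul_assoc, ← Finset.mul_sum]
          rw [← h5]
          field_simp
        · have h5 := hrβ (Sum.inl i)
          simp only [Sum.elim_inl] at h5
          have h6 : ∀ l, (a l i : ℝ) = ((al (uu u D) (dx D) (x l) (Sum.inl i) : ℤ) : ℝ) := fun l => by
            rw [← haz]
            push_cast
            rfl
          simp only [h6, mul_assoc, ← Finset.mul_sum]
          rw [← h5]
          field_simp
    · rintro β ⟨r, hr, hrt, hrβ⟩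
      have h5 := mem_P_comb hQ hr
      have e1 : t = fun j => ∑ l, r l * (T l j : ℝ) := funext hrt
      have e2 : β = fun i => ∑ l, r l * (a l i : ℝ) := funext hrβ
      rw [e1, e2]
      exact h5
  · obtain ⟨N, hN, h5⟩ := secs_of_gens (c := c) (L := L) (T := T) (a := a) fun l => by
      obtain ⟨E, hE, hg⟩ := (h1 l).2.2.2
      refine ⟨E, hE, fun v₀ => ?_⟩
      obtain ⟨f, hf, hf0⟩ := hg v₀
      refine ⟨f, hf0, hf.holo, fun γ v => ?_⟩
      rw [hf.eq γ v]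
      congr 1
      change (lb (one Γ) (cc c L) (x l).1.toNat
        fun i => (al (uu u D) (dx D) (x l) i).toNat).e γ v ^ E = _
      rw [lb_e]
      congr 1
      have e1 : (one Γ).e γ v = 1 := rfl
      rw [e1, one_pow, one_mul, Fintype.prod_sum_type, eb, mul_inv, mul_comm]
      congr 1
      rw [← Finset.prod_inv_distrib]
      refine Finset.prod_congr rfl fun j _ => ?_
      change (((L j).e γ v)⁻¹ ^ T l j)⁻¹ = _
      rw [inv_pow, inv_inv]
    refine ⟨N, hN, fun t α htα v₀ => ?_⟩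
    obtain ⟨μ, hμ1, hμ2⟩ := hgen t α htα
    obtain ⟨f, hf0, hfd, hfe⟩ := h5 μ v₀
    have e1 : t = fun j => ∑ l, μ l * T l j := funext hμ1
    have e2 : α = fun i => ∑ l, μ l * a l i := funext hμ2
    refine ⟨f, hf0, isSection_eb htα.1 N hfd fun γ v => ?_⟩
    rw [hfe γ v, ← e1, ← e2]
  · obtain ⟨W, hW⟩ := h4 A HA hA b
    refine ⟨W.image fun w => ((fun j => al (uu u D) (dx D) w (Sum.inr j)),
      fun i => al (uu u D) (dx D) w (Sum.inl i) + b i), fun t G hG v α hα => ?_⟩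
    obtain ⟨w, hw, μ, h5, h6⟩ := hW t G hG v α hα
    refine ⟨_, Finset.mem_image_of_mem _ hw, μ, fun j => ?_, fun i => ?_⟩
    · have h7 := h5 j
      rw [al_add, hcomb] at h7
      simp only [← hTz] at h7
      exact h7
    · have h7 := h6 i
      rw [al_add, hcomb] at h7
      simp only [← haz] at h7
      rw [h7]
      ring

end Q47.GEO
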