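import Pool.Agent.Q47.GEO.Lift

/-!
# The semigroup of several adjoint divisors on a toric bundle
-/

set_option autoImplicit false

namespace Q47.GEO

open Pool.Agent.W594.SYZ2 Pool.Agent.W594.SYZ2.TQ Pool.Agent.TH735.AQ MvPolynomial Q47.KN Q47.EB
open Q47.TB Q47.TK
open Q47.MM (nef_of_section Inv inv_of_chern roots exists_tests Refls nef_of_roots cone_decomp)

variable {V : Type*} [NormedAddCommGroup V] [NormedSpace ℂ V] {Γ : Subgroup (V ≃ᵃ[ℂ] V)}
  {ι : Type*} [Fintype ι] {n s : ℕ}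

omit [NormedAddCommGroup V] [NormedSpace ℂ V] in
/-- The class on the base. -/
theorem form_eq (u : ι → Fin n → ℤ) (d : Fin (s + 1) → ι → ℤ) (H : Fin (s + 1) → V → V → ℂ)
    (Hc : ι → V → V → ℂ) (x : ℤ × (Fin (n + s) → ℤ)) (v w : V) :
    form (uu u d) (dx d) (fun _ _ => 0) (HH Hc H) x v w
      = ∑ j, (al (uu u d) (dx d) x (Sum.inr j) : ℂ) * H j v w
        - ∑ i, (al (uu u d) (dx d) x (Sum.inl i) : ℂ) * Hc i v w := by
  rw [form, Fintype.sum_sum_type]
  simp only [HH, Sum.elim_inl, Sum.elim_inr, mul_neg, Finset.sum_neg_distrib, mul_zero]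
  ring

/-- Enumeration of the nonzero elements of a finite set. -/
theorem enum {M : Type*} [AddCommMonoid M] (B : Finset M) :
    ∃ (p : ℕ) (x : Fin p → M), (∀ l, x l ∈ B ∧ x l ≠ 0) ∧
      ∀ μ : M → ℕ, ∑ b ∈ B, μ b • b = ∑ l, μ (x l) • x l := by
  classical
  let B' := B.filter fun b => b ≠ 0
  refine ⟨B'.card, fun l => (B'.equivFin.symm l : M), fun l => ?_, fun μ => ?_⟩
  · have h := (B'.equivFin.symm l).2
    exact Finset.mem_filter.1 h
  · have h1 : ∑ b ∈ B', μ b • b = ∑ b ∈ B, μ b • b :=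
      Finset.sum_filter_of_ne fun b _ h h0 => h (by rw [h0, smul_zero])
    rw [← h1, ← Finset.sum_coe_sort]
    exact (Equiv.sum_comp B'.equivFin.symm fun b : B' => μ (b : M) • (b : M)).symm

/-- The semigroup of the pairs `(t, α)` such that `∑ α_i D_i` is of the class of `∑ t_j D_j` on the
fibres and the difference is nef. -/
def Q (u : ι → Fin n → ℤ) (d : Fin (s + 1) → ι → ℤ) (H : Fin (s + 1) → V → V → ℂ)
    (Hc : ι → V → V → ℂ) : Set ((Fin (s + 1) → ℕ) × (ι → ℕ)) :=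
  {p | LinEquiv u (fun i => (p.2 i : ℤ)) (fun i => ∑ j, (p.1 j : ℤ) * d j i) ∧
    IsNefForm fun v w => ∑ j, (p.1 j : ℂ) * H j v w - ∑ i, (p.2 i : ℂ) * Hc i v w}

/-- The monomials of a section. -/
theorem mem_Q [FiniteDimensional ℂ V] (hΓ : IsTorusQuotient Γ) {u : ι → Fin n → ℤ}
    {d : Fin (s + 1) → ι → ℤ} {c : ι → LineBundle Γ} {Hc : ι → V → V → ℂ}
    (hc : ∀ i, IsChernForm (c i) (Hc i)) {L : Fin (s + 1) → LineBundle Γ}
    {H : Fin (s + 1) → V → V → ℂ} (hL : ∀ j, IsChernForm (L j) (H j)) {t : Fin (s + 1) → ℕ}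
    {G : V → MvPolynomial ι ℂ}
    (hG : IsSection u c (fun i => ∑ j, (t j : ℤ) * d j i) (fun γ v => ∏ j, (L j).e γ v ^ t j) G)
    {v : V} {α : ι →₀ ℕ} (hα : coeff α (G v) ≠ 0) : (t, (α : ι → ℕ)) ∈ Q u d H Hc := by
  refine ⟨hG.deg v α (mem_support_iff.2 hα), ?_⟩
  have hG1 : IsSection u c (fun i => ∑ j, (t j : ℤ) * d j i + 0)
      (fun γ v => (∏ j, (L j).e γ v ^ t j) * (one Γ).e γ v) G := by
    have h1 : (fun i => ∑ j, (t j : ℤ) * d j i + 0) = fun i => ∑ j, (t j : ℤ) * d j i :=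
      funext fun i => add_zero _
    have h2 : (fun (γ : Γ) (v : V) => (∏ j, (L j).e γ v ^ t j) * (one Γ).e γ v)
        = fun γ v => ∏ j, (L j).e γ v ^ t j := by
      funext γ v
      exact mul_one _
    rw [h1, h2]
    exact hG
  have hG2 := isSection_lift hG1 rfl
  have hch := chern_tw (Q47.KN.chern_tensor (chern_one (Γ := Γ)) (chern_one (Γ := Γ))
    (∑ j, t j)) (chern_cc hc hL) 1 fun i => mon α t i
  have hn := nef_of_section hΓ hch (coeff_section hG2 (mon α t))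
    ⟨v, by rw [coeff_lift_mon]; exact hα⟩
  intro w
  have h1 := hn w
  have h2 : ((1 : ℕ) : ℂ) * (((∑ j, t j : ℕ) : ℂ) * 0 + 0 - ∑ i, (mon α t i : ℂ) * HH Hc H i w w)
      = ∑ j, (t j : ℂ) * H j w w - ∑ i, (α i : ℂ) * Hc i w w := by
    rw [Fintype.sum_sum_type]
    simp only [HH, Sum.elim_inl, Sum.elim_inr, mul_neg, Finset.sum_neg_distrib, mon_inl, mon_inr]
    push_cast
    ring
  beta_reduce at h1
  rw [h2] at h1
  exact h1

variable [FiniteDimensional ℂ V]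

/-- The generators. -/
theorem core (hΓ : IsTorusQuotient Γ) {ρ : V → ℂ} (hρ : IsRamification Γ ρ)
    {u : ι → Fin n → ℤ} {S : Set (Set ι)} (hS : IsSmoothFan u S) (hs : 1 ≤ s)
    {c : ι → LineBundle Γ} {Hc : ι → V → V → ℂ} (hc : ∀ i, IsChernForm (c i) (Hc i))
    {m : ℕ} {d : Fin (s + 1) → ι → ℤ} {F : Fin (s + 1) → V → MvPolynomial ι ℂ}
    {L : Fin (s + 1) → LineBundle Γ} {H : Fin (s + 1) → V → V → ℂ}
    (hL : ∀ j, IsChernForm (L j) (H j))
    (hF : ∀ j, TB.IsLogPluricanonical u c m ρ (d j) (F j) (L j))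
    (T : Fin (s + 1) → Finset (ι →₀ ℕ)) (hT : ∀ j, ∀ α ∈ T j, ∃ v, coeff α (F j v) ≠ 0)
    (hw : ∀ j, ∀ a : ι → ℕ, {i | a i ≠ 0} ∈ S → ∃ α ∈ T j, ∑ i, a i * α i ≤ m * ∑ i, a i)
    {D : Fin (s + 1) → ι → ℤ} (hD : D = fun j i => d j i - m) :
    ∃ (p : ℕ) (x : Fin p → ℤ × (Fin (n + s) → ℤ)),
      (∀ l, 0 < (x l).1 ∧ (∀ i, 0 ≤ al (uu u D) (dx D) (x l) i) ∧
        IsNefForm (form (uu u D) (dx D) (fun _ _ => 0) (HH Hc H) (x l)) ∧ ∃ E : ℕ, 1 ≤ E ∧
          GG ((lb (one Γ) (cc c L) (x l).1.toNat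
            fun i => (al (uu u D) (dx D) (x l) i).toNat).pow E)) ∧
      (∀ y, (∀ i, 0 ≤ al (uu u D) (dx D) y i) →
        IsNefForm (form (uu u D) (dx D) (fun _ _ => 0) (HH Hc H) y) →
          ∃ μ : Fin p → ℕ, y = ∑ l, μ l • x l) ∧
      (∀ β ∈ pol (uu u D) (dx D) (fun _ _ => 0) (HH Hc H), ∃ r : Fin p → ℝ, (∀ l, 0 ≤ r l) ∧
        ∀ i, β i = ∑ l, r l * (al (uu u D) (dx D) (x l) i : ℝ)) ∧
      ∀ (A : LineBundle Γ) (HA : V → V → ℂ), IsChernForm A HA → ∀ b : ι → ℤ,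
        ∃ W : Finset (ℤ × (Fin (n + s) → ℤ)), ∀ (t : Fin (s + 1) → ℕ) (G : V → MvPolynomial ι ℂ),
          IsSection u c (fun i => ∑ j, (t j : ℤ) * D j i + b i)
            (fun γ v => (∏ j, (L j).e γ v ^ t j) * A.e γ v) G → ∀ v α, coeff α (G v) ≠ 0 →
              ∃ w ∈ W, ∃ μ : Fin p → ℕ,
                (∀ j, (t j : ℤ) = al (uu u D) (dx D) (∑ l, μ l • x l + w) (Sum.inr j)) ∧
                ∀ i, (α i : ℤ) = al (uu u D) (dx D) (∑ l, μ l • x l + w) (Sum.inl i) + b i := by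
  classical
  have := finite_Lin hΓ
  have hRf : Fintype (Refls Γ) := Fintype.ofFinite _
  have hS' := smooth hS hs D
  have hc' := chern_cc hc hL
  have hF' := pair_FF hF
  rw [← hD] at hF'
  obtain ⟨X, Y, tL, tc, htL, htc, htA, ht⟩ := exists_tst hΓ (chern_one (Γ := Γ)) hc'
  obtain ⟨B, hB, hBg, hBW⟩ := gens (tst (uu u D) (dx D) tL tc)
    (tst_inj hS' (d := dx D) tL tc)
  let T' : Finset ((ι ⊕ Fin (s + 1)) →₀ ℕ) :=
    Finset.univ.biUnion fun j => (T j).image fun α => mon α fun k => m + if k = j then 1 else 0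
  have hsemi := semi_of_pair hΓ hρ hS' hc' (chern_one (Γ := Γ)) hF' T'
    (fun α' hα' => by
      obtain ⟨j, -, hj⟩ := Finset.mem_biUnion.1 hα'
      obtain ⟨α, hα, rfl⟩ := Finset.mem_image.1 hj
      obtain ⟨v, hv⟩ := hT j α hα
      exact ⟨v, by rw [coeff_FF_mon]; exact hv⟩)
    (fun a ha => by
      obtain ⟨j, α, hα, h⟩ := weights hw a ha
      exact ⟨_, Finset.mem_biUnion.2 ⟨j, Finset.mem_univ j, Finset.mem_image.2 ⟨α, hα, rfl⟩⟩, h⟩)
    htL htc ht
  simp only [add_sub_cancel_right] at hsemi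
  have hB0 : ∀ b ∈ B, b.1 = 0 → b = 0 := fun b hb h =>
    eq_zero_of_nonneg hS' h fun i => (hB b hb).2 (Sum.inl i)
  obtain ⟨p, x, hx, hxs⟩ := enum B
  have hpos : ∀ l, 0 < (x l).1 := fun l =>
    lt_of_le_of_ne (hB _ (hx l).1).1 fun h => (hx l).2 (hB0 _ (hx l).1 h.symm)
  refine ⟨p, x, fun l => ⟨hpos l, fun i => (hB _ (hx l).1).2 (Sum.inl i),
    hsemi (x l) (hpos l) (hB _ (hx l).1).2⟩, fun y hy hn => ?_, fun β hβ => ?_,
    fun A HA hA b => ?_⟩
  · obtain ⟨μ, hμ⟩ := hBg y (by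
      rw [fst_eq u D y]
      exact Finset.sum_nonneg fun j _ => hy (Sum.inr j)) (by
      rintro (i | g)
      · exact hy i
      · have h1 := (ht _ (form_herm (u := uu u D) (d := dx D) (chern_one (Γ := Γ)).1
          (fun i => (hc' i).1) y)).1 (fun a _ => hn a) g
        have h2 : (form (uu u D) (dx D) (fun _ _ => 0) (HH Hc H) y (X g) (Y g)).im
            = y.1 * tL g - ∑ i, (al (uu u D) (dx D) y i : ℝ) * tc i g := by
          rw [form, Complex.sub_im, Complex.im_sum, im_int_mul, htL g]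
          simp only [im_int_mul, htc]
        rw [h2] at h1
        rw [tst_inr]
        exact_mod_cast h1)
    exact ⟨fun l => μ (x l), by rw [hμ]; exact hxs μ⟩
  · obtain ⟨hβ0, ⟨q, hq⟩, hn⟩ := hβ
    have hh := herm_real (chern_one (Γ := Γ)).1 (fun i => (hc' i).1) β
    have him : ∀ g, 0 ≤ (tL g : ℝ)
        - ∑ i, ((dx D i : ℝ) + ∑ k, q k * uu u D i k) * tc i g := by
      intro g
      have h1 := (ht _ hh).1 (fun a _ => hn a) g
      have h2 : ((0 : ℂ) - ∑ i, (β i : ℂ) * HH Hc H i (X g) (Y g)).im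
          = tL g - ∑ i, β i * tc i g := by
        rw [Complex.sub_im, Complex.im_sum, htL g]
        simp only [Complex.im_ofReal_mul, htc]
      rw [h2] at h1
      simp only [hq] at h1
      exact h1
    obtain ⟨κ, hκ, r, y, hr, hy1, hyt, hs1, hs2⟩ := real_decomp (uu u D) (dx D) tL tc q
      (fun i => by rw [← hq]; exact hβ0 i) him
    choose μ hμ using fun k => hBg (y k) (hy1 k) (hyt k)
    refine ⟨fun l => ∑ k, r k * μ k (x l), fun l => Finset.sum_nonneg fun k _ =>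
      mul_nonneg (hr k).le (Nat.cast_nonneg _), fun i => ?_⟩
    have h1 : β i = ∑ k, r k * (al (uu u D) (dx D) (y k) i : ℝ) := by
      rw [hq i]
      have h1 : ∀ k, r k * (al (uu u D) (dx D) (y k) i : ℝ)
          = r k * (y k).1 * ((dx D i : ℤ) : ℝ) + ∑ l, r k * (y k).2 l * uu u D i l := by
        intro k
        rw [al]
        push_cast
        rw [mul_add, Finset.mul_sum, mul_assoc]
        congr 1
        exact Finset.sum_congr rfl fun l _ => by ring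
      simp only [h1]
      rw [Finset.sum_add_distrib, ← Finset.sum_mul, hs1, one_mul, Finset.sum_comm]
      congr 1
      refine Finset.sum_congr rfl fun l _ => ?_
      rw [← hs2 l, Finset.sum_mul]
    rw [h1]
    have h2 : ∀ k, (al (uu u D) (dx D) (y k) i : ℝ)
        = ∑ l, (μ k (x l) : ℝ) * (al (uu u D) (dx D) (x l) i : ℝ) := by
      intro k
      rw [hμ k, hxs (μ k)]
      have := al_comb (uu u D) (dx D) Finset.univ (fun l => μ k (x l)) x i
      rw [this]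
      push_cast
      rfl
    simp only [h2, Finset.mul_sum, Finset.sum_mul]
    rw [Finset.sum_comm]
    exact Finset.sum_congr rfl fun l _ => Finset.sum_congr rfl fun k _ => by ring
  · obtain ⟨tA, htA'⟩ := htA A HA hA
    let b' : ι ⊕ Fin (s + 1) → ℤ := Sum.elim b fun _ => 0
    let ε : ℕ := ∑ i, (b' i).natAbs + ∑ g, (tA g - ∑ i, b' i * tc i g).natAbs
    have hε1 : ∀ i, |b' i| ≤ ε := by
      intro i
      have h1 : (b' i).natAbs ≤ ∑ i, (b' i).natAbs :=
        Finset.single_le_sum (f := fun i => (b' i).natAbs) (fun _ _ => Nat.zero_le _)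
          (Finset.mem_univ i)
      rw [Int.abs_eq_natAbs]
      exact_mod_cast h1.trans (Nat.le_add_right _ _)
    have hε2 : ∀ g, |tA g - ∑ i, b' i * tc i g| ≤ ε := by
      intro g
      have h1 : (tA g - ∑ i, b' i * tc i g).natAbs ≤ ∑ g, (tA g - ∑ i, b' i * tc i g).natAbs :=
        Finset.single_le_sum (f := fun g => (tA g - ∑ i, b' i * tc i g).natAbs)
          (fun _ _ => Nat.zero_le _) (Finset.mem_univ g)
      rw [Int.abs_eq_natAbs]
      exact_mod_cast h1.trans (Nat.le_add_left _ _)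
    obtain ⟨W, hW, hWg⟩ := hBW ε
    refine ⟨W, fun t G hG v α hα => ?_⟩
    have hG2 := isSection_lift hG (k := ∑ j, t j) rfl
    obtain ⟨y, hy1, hy2, hy3⟩ := mem_near hΓ (chern_one (Γ := Γ)) hc' hA htL htc htA' ht hε1 hε2
      hG2 (v := v) (α := mon α t) (by rw [coeff_lift_mon]; exact hα)
    obtain ⟨w, hw, μ, hμ⟩ := hWg y (by rw [hy1]; exact Int.natCast_nonneg _) hy3
    rw [hxs μ] at hμ
    refine ⟨w, hw, fun l => μ (x l), fun j => ?_, fun i => ?_⟩
    · have h1 := hy2 (Sum.inr j)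
      rw [mon_inr] at h1
      rw [h1, hμ]
      simp [b']
    · have h1 := hy2 (Sum.inl i)
      rw [mon_inl] at h1
      rw [h1, hμ]
      simp [b']

end Q47.GEO
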