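import Pool.Agent.Q47.TK.Zar2

/-!
# The projective bundle of a direct sum of line bundles on a toric bundle: the fan
-/

set_option autoImplicit false

namespace Q47.GEO

open Q47.TB Q47.TK

variable {ι : Type*} [Fintype ι] {n s : ℕ}

/-- The rays. -/
def uu (u : ι → Fin n → ℤ) (d : Fin (s + 1) → ι → ℤ) : ι ⊕ Fin (s + 1) → Fin (n + s) → ℤ :=
  Sum.elim (fun i => Fin.append (u i) fun j => d j.succ i - d 0 i)
    (fun j => Fin.append (fun _ => 0)
      (Fin.cases (motive := fun _ => Fin s → ℤ) (fun _ => -1) (fun j => Pi.single j 1) j))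

/-- The cones. -/
def SS (s : ℕ) (S : Set (Set ι)) : Set (Set (ι ⊕ Fin (s + 1))) :=
  {σ | {i | Sum.inl i ∈ σ} ∈ S ∧ ∃ j, Sum.inr j ∉ σ}

/-- The class of the tautological divisor. -/
def dx (d : Fin (s + 1) → ι → ℤ) : ι ⊕ Fin (s + 1) → ℤ :=
  Sum.elim (d 0) (Fin.cases (motive := fun _ => ℤ) 1 fun _ => 0)

/-- The point with the coordinates `t`, `q`. -/
def pt (t : Fin (s + 1) → ℤ) (q : Fin n → ℤ) : ℤ × (Fin (n + s) → ℤ) :=
  (∑ j, t j, Fin.append q fun j => t j.succ)

omit [Fintype ι] in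
theorem sum_uu_inl {R : Type*} [CommRing R] (u : ι → Fin n → ℤ) (d : Fin (s + 1) → ι → ℤ) (w : Fin (n + s) → R) (i : ι) :
    ∑ l, w l * (uu u d (Sum.inl i) l : R) = ∑ l, w (Fin.castAdd s l) * (u i l : R) +
      ∑ j, w (Fin.natAdd n j) * ((d j.succ i - d 0 i : ℤ) : R) := by
  rw [Fin.sum_univ_add]
  simp only [uu, Sum.elim_inl, Fin.append_left, Fin.append_right]

omit [Fintype ι] in
theorem sum_uu_zero {R : Type*} [CommRing R] (u : ι → Fin n → ℤ) (d : Fin (s + 1) → ι → ℤ) (w : Fin (n + s) → R) :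
    ∑ l, w l * (uu u d (Sum.inr 0) l : R) = -∑ j, w (Fin.natAdd n j) := by
  rw [Fin.sum_univ_add]
  simp [uu, Fin.append_left, Fin.append_right]

omit [Fintype ι] in
theorem sum_uu_succ {R : Type*} [CommRing R] (u : ι → Fin n → ℤ) (d : Fin (s + 1) → ι → ℤ) (w : Fin (n + s) → R)
    (j : Fin s) : ∑ l, w l * (uu u d (Sum.inr j.succ) l : R) = w (Fin.natAdd n j) := by
  rw [Fin.sum_univ_add]
  simp only [uu, Sum.elim_inr, Fin.append_left, Fin.append_right, Int.cast_zero, mul_zero,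
    Finset.sum_const_zero, zero_add, Fin.cases_succ]
  rw [Finset.sum_eq_single j]
  · simp
  · intro l _ hl
    simp [Pi.single_apply, hl]
  · simp

omit [Fintype ι] in
theorem al_pt_inl (u : ι → Fin n → ℤ) (d : Fin (s + 1) → ι → ℤ) (t : Fin (s + 1) → ℤ)
    (q : Fin n → ℤ) (i : ι) :
    al (uu u d) (dx d) (pt t q) (Sum.inl i) = ∑ j, t j * d j i + ∑ l, q l * u i l := by
  have h := sum_uu_inl (R := ℤ) u d (pt t q).2 i
  simp only [Int.cast_id] at h
  rw [al, h]
  simp only [pt, dx, Sum.elim_inl, Fin.append_left, Fin.append_right, mul_sub,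
    Finset.sum_sub_distrib, Fin.sum_univ_succ, ← Finset.sum_mul]
  ring

omit [Fintype ι] in
theorem al_pt_inr (u : ι → Fin n → ℤ) (d : Fin (s + 1) → ι → ℤ) (t : Fin (s + 1) → ℤ)
    (q : Fin n → ℤ) (j : Fin (s + 1)) :
    al (uu u d) (dx d) (pt t q) (Sum.inr j) = t j := by
  rw [al]
  rcases Fin.eq_zero_or_eq_succ j with rfl | ⟨j, rfl⟩
  · have h := sum_uu_zero (R := ℤ) u d (pt t q).2
    simp only [Int.cast_id] at h
    rw [h]
    simp only [pt, dx, Sum.elim_inr, Fin.append_right, Fin.cases_zero, Fin.sum_univ_succ]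
    ring
  · have h := sum_uu_succ (R := ℤ) u d (pt t q).2 j
    simp only [Int.cast_id] at h
    rw [h]
    simp only [pt, dx, Sum.elim_inr, Fin.append_right, Fin.cases_succ]
    ring

omit [Fintype ι] in
/-- Each point is of this form. -/
theorem eq_pt (u : ι → Fin n → ℤ) (d : Fin (s + 1) → ι → ℤ) (x : ℤ × (Fin (n + s) → ℤ)) :
    x = pt (fun j => al (uu u d) (dx d) x (Sum.inr j)) (fun l => x.2 (Fin.castAdd s l)) := by
  have h0 : al (uu u d) (dx d) x (Sum.inr 0) = x.1 - ∑ j, x.2 (Fin.natAdd n j) := by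
    have h := sum_uu_zero (R := ℤ) u d x.2
    simp only [Int.cast_id] at h
    rw [al, h]
    simp only [dx, Sum.elim_inr, Fin.cases_zero]
    ring
  have h1 : ∀ j : Fin s, al (uu u d) (dx d) x (Sum.inr j.succ) = x.2 (Fin.natAdd n j) := by
    intro j
    have h := sum_uu_succ (R := ℤ) u d x.2 j
    simp only [Int.cast_id] at h
    rw [al, h]
    simp only [dx, Sum.elim_inr, Fin.cases_succ]
    ring
  refine Prod.ext ?_ ?_
  · simp only [pt, Fin.sum_univ_succ, h0, h1]
    ring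
  · funext l
    simp only [pt, h1]
    refine Fin.addCases (fun l => ?_) (fun l => ?_) l
    · rw [Fin.append_left]
    · rw [Fin.append_right]

omit [Fintype ι] in
theorem al_inl_eq (u : ι → Fin n → ℤ) (d : Fin (s + 1) → ι → ℤ) (x : ℤ × (Fin (n + s) → ℤ))
    (i : ι) : al (uu u d) (dx d) x (Sum.inl i)
      = ∑ j, al (uu u d) (dx d) x (Sum.inr j) * d j i + ∑ l, x.2 (Fin.castAdd s l) * u i l := by
  conv_lhs => rw [eq_pt u d x]
  rw [al_pt_inl]

omit [Fintype ι] in
theorem fst_eq (u : ι → Fin n → ℤ) (d : Fin (s + 1) → ι → ℤ) (x : ℤ × (Fin (n + s) → ℤ)) :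
    x.1 = ∑ j, al (uu u d) (dx d) x (Sum.inr j) := by
  conv_lhs => rw [eq_pt u d x]
  rfl

/-- The fan of the projective space. -/
theorem proj_rep (y : Fin s → ℤ) : ∃! b : Fin (s + 1) → ℕ, (∃ j, b j = 0) ∧
    ∀ j : Fin s, (b j.succ : ℤ) - b 0 = y j := by
  let z : Fin (s + 1) → ℤ := Fin.cons 0 y
  obtain ⟨j₀, -, hj₀⟩ := Finset.exists_min_image Finset.univ z Finset.univ_nonempty
  have h0 : ∀ j, ((z j - z j₀).toNat : ℤ) = z j - z j₀ := fun j =>
    Int.toNat_of_nonneg (sub_nonneg.2 (hj₀ j (Finset.mem_univ j)))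
  refine ⟨fun j => (z j - z j₀).toNat, ⟨⟨j₀, by simp⟩, fun j => ?_⟩, ?_⟩
  · simp only [h0]
    simp [z]
  · rintro b ⟨⟨j₁, hj₁⟩, hb⟩
    have h1 : ∀ j, (b j : ℤ) - b 0 = z j := by
      intro j
      rcases Fin.eq_zero_or_eq_succ j with rfl | ⟨j, rfl⟩
      · simp [z]
      · rw [hb]
        simp [z]
    funext j
    have h2 := h1 j
    have h3 := h1 j₁
    have h4 := h1 j₀
    have h5 := hj₀ j₁ (Finset.mem_univ j₁)
    have h6 : (0 : ℤ) ≤ b j₀ := Int.natCast_nonneg _
    rw [hj₁] at h3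
    push_cast at h3
    have h7 : (b j : ℤ) = z j - z j₀ := by linarith
    rw [← h7, Int.toNat_natCast]

/-- The fan is smooth and complete. -/
theorem smooth {u : ι → Fin n → ℤ} {S : Set (Set ι)} (hS : IsSmoothFan u S) (hs : 1 ≤ s)
    (d : Fin (s + 1) → ι → ℤ) : IsSmoothFan (uu u d) (SS s S) := by
  have h0 : (∅ : Set ι) ∈ S := by
    obtain ⟨a, ⟨ha, -⟩, -⟩ := hS.rep 0
    exact hS.face _ ha _ (Set.empty_subset _)
  refine ⟨?_, ?_, ?_⟩
  · rintro (i | j)
    · refine ⟨?_, 0, fun h => ?_⟩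
      · have : {i' : ι | Sum.inl i' ∈ ({Sum.inl i} : Set (ι ⊕ Fin (s + 1)))} = {i} := by
          ext i'
          simp
        rw [this]
        exact hS.ray i
      · simp at h
    · refine ⟨?_, ?_⟩
      · have : {i' : ι | Sum.inl i' ∈ ({Sum.inr j} : Set (ι ⊕ Fin (s + 1)))} = ∅ := by
          ext i'
          simp
        rw [this]
        exact h0
      · have : Nontrivial (Fin (s + 1)) := Fin.nontrivial_iff_two_le.2 (by omega)
        obtain ⟨j', hj'⟩ := exists_ne j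
        exact ⟨j', fun h => hj' (Sum.inr_injective h)⟩
  · rintro σ ⟨h1, j, hj⟩ τ hτ
    exact ⟨hS.face _ h1 _ fun i hi => hτ hi, j, fun h => hj (hτ h)⟩
  · intro w
    obtain ⟨a, ⟨ha1, ha2⟩, ha3⟩ := hS.rep fun l => w (Fin.castAdd s l)
    obtain ⟨b, ⟨hb1, hb2⟩, hb3⟩ := proj_rep (s := s) fun j =>
      w (Fin.natAdd n j) - ∑ i, (a i : ℤ) * (d j.succ i - d 0 i)
    have key : ∀ (c : ι ⊕ Fin (s + 1) → ℕ), (∀ k, ∑ i, (c i : ℤ) * uu u d i k = w k) ↔
        (∀ k, ∑ i, (c (Sum.inl i) : ℤ) * u i k = w (Fin.castAdd s k)) ∧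
        ∀ j : Fin s, ∑ i, (c (Sum.inl i) : ℤ) * (d j.succ i - d 0 i) +
          ((c (Sum.inr j.succ) : ℤ) - c (Sum.inr 0)) = w (Fin.natAdd n j) := by
      intro c
      have e1 : ∀ k : Fin n, ∑ i, (c i : ℤ) * uu u d i (Fin.castAdd s k)
          = ∑ i, (c (Sum.inl i) : ℤ) * u i k := by
        intro k
        rw [Fintype.sum_sum_type]
        have : ∑ j : Fin (s + 1), (c (Sum.inr j) : ℤ) * uu u d (Sum.inr j) (Fin.castAdd s k) = 0 :=
          Finset.sum_eq_zero fun j _ => by simp [uu, Fin.append_left]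
        rw [this, add_zero]
        exact Finset.sum_congr rfl fun i _ => by simp [uu, Fin.append_left]
      have e2 : ∀ j : Fin s, ∑ i, (c i : ℤ) * uu u d i (Fin.natAdd n j)
          = ∑ i, (c (Sum.inl i) : ℤ) * (d j.succ i - d 0 i) +
            ((c (Sum.inr j.succ) : ℤ) - c (Sum.inr 0)) := by
        intro j
        rw [Fintype.sum_sum_type]
        congr 1
        · exact Finset.sum_congr rfl fun i _ => by simp [uu, Fin.append_right]
        · rw [Fin.sum_univ_succ]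
          simp only [uu, Sum.elim_inr, Fin.append_right, Fin.cases_zero, Fin.cases_succ]
          rw [Finset.sum_eq_single j]
          · simp
            ring
          · intro l _ hl
            simp [Pi.single_apply, Ne.symm hl]
          · simp
      constructor
      · intro h
        exact ⟨fun k => by rw [← e1, h], fun j => by rw [← e2, h]⟩
      · rintro ⟨h1, h2⟩ k
        refine Fin.addCases (fun l => ?_) (fun l => ?_) k
        · rw [e1, h1]
        · rw [e2, h2]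
    refine ⟨Sum.elim a b, ⟨⟨?_, ?_⟩, (key _).2 ⟨?_, ?_⟩⟩, ?_⟩
    · simpa using ha1
    · obtain ⟨j, hj⟩ := hb1
      exact ⟨j, fun h => h hj⟩
    · simpa using ha2
    · intro j
      simp only [Sum.elim_inl, Sum.elim_inr]
      rw [hb2]
      ring
    · rintro c ⟨⟨hc1, j, hj⟩, hc2⟩
      obtain ⟨h1, h2⟩ := (key c).1 hc2
      have h3 : (fun i => c (Sum.inl i)) = a := ha3 _ ⟨hc1, h1⟩
      have h3' : ∀ i, c (Sum.inl i) = a i := fun i => congrFun h3 i
      have h4 : (fun j => c (Sum.inr j)) = b := by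
        refine hb3 _ ⟨⟨j, by simpa using hj⟩, fun j => ?_⟩
        have := h2 j
        simp only [h3'] at this
        linarith
      funext i
      rcases i with i | j
      · exact h3' i
      · exact congrFun h4 j

end Q47.GEO
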