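import Pool.Agent.Q47.GEO.Fan

/-!
# The projective bundle of a direct sum of line bundles on a toric bundle: sections and pairs
-/

set_option autoImplicit false

namespace Q47.GEO

open Pool.Agent.W594.SYZ2 Pool.Agent.W594.SYZ2.TQ Pool.Agent.TH735.AQ MvPolynomial Q47.KN
open Q47.TB Q47.TK

variable {ι : Type*} [Fintype ι] {n s : ℕ}

/-- The exponents `(a, t)`. -/
noncomputable def mon (a : ι →₀ ℕ) (t : Fin (s + 1) → ℕ) : (ι ⊕ Fin (s + 1)) →₀ ℕ :=
  Finsupp.equivFunOnFinite.symm (Sum.elim a t)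

theorem mon_inl (a : ι →₀ ℕ) (t : Fin (s + 1) → ℕ) (i : ι) : mon a t (Sum.inl i) = a i := rfl

theorem mon_inr (a : ι →₀ ℕ) (t : Fin (s + 1) → ℕ) (j : Fin (s + 1)) :
    mon a t (Sum.inr j) = t j := rfl

/-- The exponents of the coordinates `x`. -/
noncomputable def lft (e : (ι ⊕ Fin (s + 1)) →₀ ℕ) : ι →₀ ℕ :=
  Finsupp.equivFunOnFinite.symm fun i => e (Sum.inl i)

theorem lft_apply (e : (ι ⊕ Fin (s + 1)) →₀ ℕ) (i : ι) : lft e i = e (Sum.inl i) := rfl

theorem lft_mon (a : ι →₀ ℕ) (t : Fin (s + 1) → ℕ) : lft (mon a t) = a := by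
  ext i
  rfl

theorem mon_eq_iff (a : ι →₀ ℕ) (t : Fin (s + 1) → ℕ) (e : (ι ⊕ Fin (s + 1)) →₀ ℕ) :
    mon a t = e ↔ a = lft e ∧ ∀ j, e (Sum.inr j) = t j := by
  constructor
  · rintro rfl
    exact ⟨(lft_mon a t).symm, fun j => rfl⟩
  · rintro ⟨rfl, h⟩
    ext i
    rcases i with i | j
    · rfl
    · exact (h j).symm

open Classical in
/-- The polynomial `P z ^ t`. -/
noncomputable def lift (t : Fin (s + 1) → ℕ) (P : MvPolynomial ι ℂ) :
    MvPolynomial (ι ⊕ Fin (s + 1)) ℂ :=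
  ∑ α ∈ P.support, monomial (mon α t) (coeff α P)

open Classical in
theorem coeff_lift (t : Fin (s + 1) → ℕ) (P : MvPolynomial ι ℂ) (e : (ι ⊕ Fin (s + 1)) →₀ ℕ) :
    coeff e (lift t P) = if ∀ j, e (Sum.inr j) = t j then coeff (lft e) P else 0 := by
  rw [lift, coeff_sum]
  simp only [coeff_monomial, mon_eq_iff]
  split_ifs with h
  · simp only [h, implies_true, and_true]
    rw [Finset.sum_ite_eq' P.support (lft e) fun α => coeff α P]
    split_ifs with h1
    · rfl
    · exact (notMem_support_iff.1 h1).symm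
  · exact Finset.sum_eq_zero fun α _ => if_neg fun h1 => h h1.2

theorem coeff_lift_mon (t : Fin (s + 1) → ℕ) (P : MvPolynomial ι ℂ) (α : ι →₀ ℕ) :
    coeff (mon α t) (lift t P) = coeff α P := by
  rw [coeff_lift, if_pos (mon_inr α t), lft_mon]

theorem eval_lift (t : Fin (s + 1) → ℕ) (P : MvPolynomial ι ℂ) (x : ι ⊕ Fin (s + 1) → ℂ) :
    eval x (lift t P) = eval (fun i => x (Sum.inl i)) P * ∏ j, x (Sum.inr j) ^ t j := by
  rw [lift, map_sum, eval_eq' (fun i => x (Sum.inl i)) P, Finset.sum_mul]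
  refine Finset.sum_congr rfl fun α _ => ?_
  rw [eval_monomial, Finsupp.prod_fintype _ _ fun i => pow_zero _, Fintype.prod_sum_type, mul_assoc]
  rfl

variable {V : Type*} [NormedAddCommGroup V] [NormedSpace ℂ V] {Γ : Subgroup (V ≃ᵃ[ℂ] V)}

/-- The line bundles which twist the coordinates. -/
noncomputable def cc (c : ι → LineBundle Γ) (L : Fin (s + 1) → LineBundle Γ) :
    ι ⊕ Fin (s + 1) → LineBundle Γ := Sum.elim c fun j => inv (L j)

/-- Their Chern forms. -/
def HH (Hc : ι → V → V → ℂ) (H : Fin (s + 1) → V → V → ℂ) : ι ⊕ Fin (s + 1) → V → V → ℂ :=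
  Sum.elim Hc fun j v w => -H j v w

omit [Fintype ι] in
theorem chern_inv {L : LineBundle Γ} {H : V → V → ℂ} (hL : IsChernForm L H) :
    IsChernForm (inv L) fun v w => -H v w := by
  have h1 := chern_tw (c := fun _ : Unit => L) (chern_one (Γ := Γ)) (fun _ => hL) 1 fun _ => 1
  have h2 : TB.tw (one Γ) (fun _ : Unit => L) 1 (fun _ => 1) = inv L := by
    refine lb_ext fun γ v => ?_
    change (1 : ℂ) ^ 1 * (∏ _i : Unit, L.e γ v ^ (1 * 1))⁻¹ = (L.e γ v)⁻¹
    simp
  rw [h2] at h1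
  simpa using h1

omit [Fintype ι] in
theorem chern_cc {c : ι → LineBundle Γ} {Hc : ι → V → V → ℂ} (hc : ∀ i, IsChernForm (c i) (Hc i))
    {L : Fin (s + 1) → LineBundle Γ} {H : Fin (s + 1) → V → V → ℂ}
    (hL : ∀ j, IsChernForm (L j) (H j)) (i : ι ⊕ Fin (s + 1)) :
    IsChernForm (cc c L i) (HH Hc H i) := by
  rcases i with i | j
  · exact hc i
  · exact chern_inv (hL j)

omit [Fintype ι] in
/-- Linear equivalence on the projective bundle. -/
theorem linEquiv_uu {u : ι → Fin n → ℤ} {d : Fin (s + 1) → ι → ℤ} {t : Fin (s + 1) → ℤ}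
    {α b : ι → ℤ} (h : LinEquiv u α fun i => ∑ j, t j * d j i + b i) (k : ℤ) (hk : k = ∑ j, t j) :
    LinEquiv (uu u d) (Sum.elim α t) fun i => k * dx d i + (Sum.elim b fun _ => 0) i := by
  obtain ⟨q, hq⟩ := h
  subst hk
  refine ⟨(pt t q).2, fun i => ?_⟩
  have h1 : (∑ j, t j) * dx d i + ∑ l, (pt t q).2 l * uu u d i l = al (uu u d) (dx d) (pt t q) i :=
    rfl
  rcases i with i | j
  · rw [al_pt_inl] at h1
    simp only [Sum.elim_inl]
    rw [hq i]
    linarith
  · rw [al_pt_inr] at h1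
    simp only [Sum.elim_inr]
    linarith

/-- The lift of a section. -/
theorem isSection_lift {u : ι → Fin n → ℤ} {c : ι → LineBundle Γ} {d : Fin (s + 1) → ι → ℤ}
    {L : Fin (s + 1) → LineBundle Γ} {A : LineBundle Γ} {b : ι → ℤ} {t : Fin (s + 1) → ℕ}
    {G : V → MvPolynomial ι ℂ}
    (hG : IsSection u c (fun i => ∑ j, (t j : ℤ) * d j i + b i)
      (fun γ v => (∏ j, (L j).e γ v ^ t j) * A.e γ v) G) {k : ℕ} (hk : k = ∑ j, t j) :
    IsSection (uu u d) (cc c L) (fun i => k * dx d i + (Sum.elim b fun _ => 0) i)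
      (tensor ((one Γ).pow k) A).e fun v => lift t (G v) := by
  refine ⟨fun e => ?_, fun v e he => ?_, fun γ v x => ?_⟩
  · simp only [coeff_lift]
    by_cases h : ∀ j, e (Sum.inr j) = t j
    · simp only [if_pos h]
      exact hG.holo _
    · simp only [if_neg h]
      exact differentiable_const _
  · rw [mem_support_iff, coeff_lift] at he
    by_cases h : ∀ j, e (Sum.inr j) = t j
    · rw [if_pos h] at he
      have h1 := hG.deg v (lft e) (mem_support_iff.2 he)
      have h2 := linEquiv_uu h1 (k : ℤ) (by rw [hk]; push_cast; rfl)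
      have h3 : (fun i => (e i : ℤ)) = Sum.elim (fun i => (lft e i : ℤ)) fun j => (t j : ℤ) := by
        funext i
        rcases i with i | j
        · rfl
        · simp only [Sum.elim_inr]
          rw [h j]
      rw [h3]
      exact h2
    · rw [if_neg h] at he
      exact absurd rfl he
  · rw [eval_lift, eval_lift]
    have h1 := hG.eq γ v fun i => x (Sum.inl i)
    have h2 : (fun i => (cc c L (Sum.inl i)).e γ v * x (Sum.inl i))
        = fun i => (c i).e γ v * x (Sum.inl i) := rfl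
    rw [h2, h1]
    have h3 : ∏ j, ((cc c L (Sum.inr j)).e γ v * x (Sum.inr j)) ^ t j
        = (∏ j, (L j).e γ v ^ t j)⁻¹ * ∏ j, x (Sum.inr j) ^ t j := by
      rw [← Finset.prod_inv_distrib, ← Finset.prod_mul_distrib]
      refine Finset.prod_congr rfl fun j _ => ?_
      rw [mul_pow, ← inv_pow]
      rfl
    have h4 : (∏ j, (L j).e γ v ^ t j) ≠ 0 :=
      Finset.prod_ne_zero_iff.2 fun j _ => pow_ne_zero _ ((L j).ne_zero γ v)
    have h5 : (tensor ((one Γ).pow k) A).e γ v = A.e γ v := by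
      change (1 : ℂ) ^ k * A.e γ v = A.e γ v
      rw [one_pow, one_mul]
    rw [h3, h5]
    field_simp

/-- The boundary on the projective bundle. -/
noncomputable def FF (m : ℕ) (F : Fin (s + 1) → V → MvPolynomial ι ℂ) (v : V) :
    MvPolynomial (ι ⊕ Fin (s + 1)) ℂ :=
  ∑ j, lift (fun k => m + if k = j then 1 else 0) (F j v)

omit [NormedAddCommGroup V] [NormedSpace ℂ V] in
open Classical in
theorem coeff_FF (m : ℕ) (F : Fin (s + 1) → V → MvPolynomial ι ℂ) (v : V)
    (e : (ι ⊕ Fin (s + 1)) →₀ ℕ) : coeff e (FF m F v)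
      = ∑ j, if ∀ k, e (Sum.inr k) = m + (if k = j then 1 else 0) then coeff (lft e) (F j v) else 0 := by
  rw [FF, coeff_sum]
  exact Finset.sum_congr rfl fun j _ => coeff_lift _ _ _

omit [NormedAddCommGroup V] [NormedSpace ℂ V] in
theorem coeff_FF_mon (m : ℕ) (F : Fin (s + 1) → V → MvPolynomial ι ℂ) (v : V) (α : ι →₀ ℕ)
    (j : Fin (s + 1)) :
    coeff (mon α fun k => m + if k = j then 1 else 0) (FF m F v) = coeff α (F j v) := by
  classical
  rw [coeff_FF, Finset.sum_eq_single j]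
  · rw [if_pos (mon_inr α _), lft_mon]
  · intro j' _ hj'
    refine if_neg fun h => ?_
    have h1 := h j
    rw [mon_inr, if_pos rfl, if_neg (Ne.symm hj')] at h1
    omega
  · simp

omit [NormedAddCommGroup V] [NormedSpace ℂ V] in
theorem eval_FF (m : ℕ) (F : Fin (s + 1) → V → MvPolynomial ι ℂ) (v : V)
    (x : ι ⊕ Fin (s + 1) → ℂ) : eval x (FF m F v)
      = (∏ k, x (Sum.inr k) ^ m) * ∑ j, x (Sum.inr j) * eval (fun i => x (Sum.inl i)) (F j v) := by
  rw [FF, map_sum, Finset.mul_sum]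
  refine Finset.sum_congr rfl fun j _ => ?_
  rw [eval_lift]
  simp only [pow_add, Finset.prod_mul_distrib]
  have : ∏ k, x (Sum.inr k) ^ (if k = j then 1 else 0) = x (Sum.inr j) := by
    rw [Finset.prod_eq_single j]
    · rw [if_pos rfl, pow_one]
    · intro k _ hk
      rw [if_neg hk, pow_zero]
    · simp
  rw [this]
  ring

/-- The pair on the projective bundle. -/
theorem pair_FF {u : ι → Fin n → ℤ} {c : ι → LineBundle Γ} {m : ℕ} {ρ : V → ℂ}
    {d : Fin (s + 1) → ι → ℤ} {F : Fin (s + 1) → V → MvPolynomial ι ℂ}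
    {L : Fin (s + 1) → LineBundle Γ}
    (hF : ∀ j, TB.IsLogPluricanonical u c m ρ (d j) (F j) (L j)) :
    TB.IsLogPluricanonical (uu u fun j i => d j i - m) (cc c L) m ρ
      (fun i => dx (fun j i => d j i - m) i + m) (FF m F) (one Γ) := by
  classical
  refine ⟨fun e => ?_, fun v e he => ?_, fun γ v x => ?_⟩
  · simp only [coeff_FF]
    refine Differentiable.fun_sum fun j _ => ?_
    by_cases h : ∀ k, e (Sum.inr k) = m + (if k = j then 1 else 0)
    · simp only [if_pos h]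
      exact (hF j).holo _
    · simp only [if_neg h]
      exact differentiable_const _
  · rw [mem_support_iff, coeff_FF] at he
    obtain ⟨j, -, hj⟩ := Finset.exists_ne_zero_of_sum_ne_zero he
    by_cases h : ∀ k, e (Sum.inr k) = m + (if k = j then 1 else 0)
    · rw [if_pos h] at hj
      obtain ⟨q, hq⟩ := (hF j).deg v (lft e) (mem_support_iff.2 hj)
      have h1 : LinEquiv u (fun i => (lft e i : ℤ) - m) fun i =>
          ∑ k, (if k = j then (1 : ℤ) else 0) * (d k i - m) + 0 := by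
        refine ⟨q, fun i => ?_⟩
        simp only [ite_mul, one_mul, zero_mul, Finset.sum_ite_eq', Finset.mem_univ, if_true,
          add_zero]
        have h0 : (lft e i : ℤ) = d j i + ∑ l, q l * u i l := hq i
        rw [h0]
        ring
      obtain ⟨q', hq'⟩ := linEquiv_uu (d := fun j i => d j i - m) h1 1 (by simp)
      refine ⟨q', fun i => ?_⟩
      have h2 := hq' i
      rcases i with i | k
      · simp only [Sum.elim_inl, lft_apply] at h2
        linarith
      · simp only [Sum.elim_inr] at h2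
        have h3 : ((e (Sum.inr k) : ℕ) : ℤ) = m + (if k = j then 1 else 0) := by
          rw [h k]
          push_cast
          rfl
        beta_reduce
        rw [h3]
        linarith
    · rw [if_neg h] at hj
      exact absurd rfl hj
  · rw [eval_FF, eval_FF]
    have h3 : ∏ k, ((cc c L (Sum.inr k)).e γ v * x (Sum.inr k)) ^ m
        = ((∏ k, (L k).e γ v)⁻¹) ^ m * ∏ k, x (Sum.inr k) ^ m := by
      rw [← Finset.prod_inv_distrib, ← Finset.prod_pow, ← Finset.prod_mul_distrib]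
      exact Finset.prod_congr rfl fun k _ => mul_pow _ _ _
    have h4 : ∏ i, (cc c L i).e γ v = (∏ i, (c i).e γ v) * (∏ k, (L k).e γ v)⁻¹ := by
      rw [Fintype.prod_sum_type, ← Finset.prod_inv_distrib]
      rfl
    have h5 : (∑ j, (cc c L (Sum.inr j)).e γ v * x (Sum.inr j) *
        eval (fun i => (cc c L (Sum.inl i)).e γ v * x (Sum.inl i)) (F j ((γ : V ≃ᵃ[ℂ] V) v))) *
          ρ v ^ m = (LinearMap.det ((γ : V ≃ᵃ[ℂ] V).linear : V →ₗ[ℂ] V) * ∏ i, (c i).e γ v) ^ m *
            (∑ j, x (Sum.inr j) * eval (fun i => x (Sum.inl i)) (F j v)) *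
              ρ ((γ : V ≃ᵃ[ℂ] V) v) ^ m := by
      rw [Finset.sum_mul, Finset.mul_sum, Finset.sum_mul]
      refine Finset.sum_congr rfl fun j _ => ?_
      have h6 := (hF j).eq γ v fun i => x (Sum.inl i)
      have h7 : (fun i => (cc c L (Sum.inl i)).e γ v * x (Sum.inl i))
          = fun i => (c i).e γ v * x (Sum.inl i) := rfl
      have h8 : (cc c L (Sum.inr j)).e γ v = ((L j).e γ v)⁻¹ := rfl
      rw [h7, h8, mul_assoc _ _ (ρ v ^ m), h6]
      have h9 := (L j).ne_zero γ v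
      field_simp
    have h6 : (one Γ).e γ v = 1 := rfl
    rw [h3, h4, h6, mul_assoc _ _ (ρ v ^ m), h5]
    ring

/-- The weights. -/
theorem weights {S : Set (Set ι)} {m : ℕ} {T : Fin (s + 1) → Finset (ι →₀ ℕ)}
    (hw : ∀ j, ∀ a : ι → ℕ, {i | a i ≠ 0} ∈ S → ∃ α ∈ T j, ∑ i, a i * α i ≤ m * ∑ i, a i)
    (a : ι ⊕ Fin (s + 1) → ℕ) (ha : {i | a i ≠ 0} ∈ SS s S) :
    ∃ j, ∃ α ∈ T j, ∑ i, a i * mon α (fun k => m + if k = j then 1 else 0) i ≤ m * ∑ i, a i := by
  obtain ⟨ha1, j, hj⟩ := ha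
  have hj0 : a (Sum.inr j) = 0 := by
    by_contra h
    exact hj h
  obtain ⟨α, hα, h⟩ := hw j (fun i => a (Sum.inl i)) ha1
  refine ⟨j, α, hα, ?_⟩
  rw [Fintype.sum_sum_type, Fintype.sum_sum_type, mul_add]
  refine add_le_add h ?_
  rw [Finset.mul_sum]
  refine Finset.sum_le_sum fun k _ => ?_
  rw [mon_inr]
  by_cases hk : k = j
  · rw [hk, hj0]
    simp
  · rw [if_neg hk, add_zero, mul_comm]

end Q47.GEO
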