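import Pool.Agent.Q47.GEO.Core

/-!
# Several adjoint divisors on a toric bundle
-/

set_option autoImplicit false

namespace Q47.GEO

open Pool.Agent.W594.SYZ2 Pool.Agent.W594.SYZ2.TQ Pool.Agent.TH735.AQ MvPolynomial Q47.KN Q47.EB
open Q47.TB Q47.TK
open Q47.MM (nef_of_section Inv inv_of_chern roots exists_tests Refls nef_of_roots cone_decomp)

variable {V : Type*} [NormedAddCommGroup V] [NormedSpace ℂ V] {Γ : Subgroup (V ≃ᵃ[ℂ] V)}
  {ι : Type*} [Fintype ι] {n s : ℕ}

/-- The polytope of the real divisor `∑ t_j D_j`. -/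
def P (u : ι → Fin n → ℤ) (d : Fin (s + 1) → ι → ℤ) (H : Fin (s + 1) → V → V → ℂ)
    (Hc : ι → V → V → ℂ) (t : Fin (s + 1) → ℝ) : Set (ι → ℝ) :=
  {β | (∀ i, 0 ≤ β i) ∧ (∃ q : Fin n → ℝ, ∀ i, β i = ∑ j, t j * d j i + ∑ k, q k * u i k) ∧
    IsNefForm fun v w => ∑ j, (t j : ℂ) * H j v w - ∑ i, (β i : ℂ) * Hc i v w}

/-- Real effective divisors of degree zero vanish. -/
theorem eq_zero_real {u : ι → Fin n → ℤ} {S : Set (Set ι)} (hS : IsSmoothFan u S) {β : ι → ℝ}
    (h0 : ∀ i, 0 ≤ β i) {q : Fin n → ℝ} (hq : ∀ i, β i = ∑ k, q k * u i k) (i : ι) : β i = 0 := by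
  obtain ⟨a, ha1, ha⟩ := relation hS
  have h3 : ∑ i, (a i : ℝ) * β i = 0 := by
    simp only [hq, Finset.mul_sum]
    rw [Finset.sum_comm]
    refine Finset.sum_eq_zero fun l _ => ?_
    have h5 : ∑ i, (a i : ℝ) * (q l * u i l) = q l * ∑ i, (a i : ℝ) * u i l := by
      rw [Finset.mul_sum]
      exact Finset.sum_congr rfl fun i _ => by ring
    have h6 : ∑ i, (a i : ℝ) * u i l = 0 := by exact_mod_cast ha l
    rw [h5, h6, mul_zero]
  have h4 := (Finset.sum_eq_zero_iff_of_nonneg fun i _ =>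
    mul_nonneg (Nat.cast_nonneg _) (h0 i)).1 h3 i (Finset.mem_univ i)
  refine (mul_eq_zero.1 h4).resolve_left ?_
  have := ha1 i
  positivity

/-- The points of the polytope, scaled. -/
theorem mem_pol {u : ι → Fin n → ℤ} {d : Fin (s + 1) → ι → ℤ} {H : Fin (s + 1) → V → V → ℂ}
    {Hc : ι → V → V → ℂ} {t : Fin (s + 1) → ℝ} (ht : ∀ j, 0 ≤ t j) (hτ : 0 < ∑ j, t j)
    {β : ι → ℝ} (hβ : β ∈ P u d H Hc t) :
    (fun i => (∑ j, t j)⁻¹ * (Sum.elim β t) i) ∈ pol (uu u d) (dx d) (fun _ _ => 0) (HH Hc H) := by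
  obtain ⟨h0, ⟨q, hq⟩, hn⟩ := hβ
  set τ := ∑ j, t j with hτd
  have hτ0 : τ ≠ 0 := hτ.ne'
  have hτs : t 0 = τ - ∑ j : Fin s, t j.succ := by
    rw [hτd, Fin.sum_univ_succ]
    ring
  refine ⟨fun i => ?_, ⟨Fin.append (fun k => τ⁻¹ * q k) fun j => τ⁻¹ * t j.succ, fun i => ?_⟩,
    fun v => ?_⟩
  · refine mul_nonneg (inv_nonneg.2 hτ.le) ?_
    rcases i with i | j
    · exact h0 i
    · exact ht j
  · rcases i with i | j
    · have h1 := sum_uu_inl (R := ℝ) u d
        (Fin.append (fun k => τ⁻¹ * q k) fun j : Fin s => τ⁻¹ * t j.succ) i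
      rw [h1]
      simp only [dx, Sum.elim_inl, Fin.append_left, Fin.append_right]
      rw [hq i, Fin.sum_univ_succ, hτs]
      push_cast
      simp only [mul_sub, Finset.sum_sub_distrib]
      have h2 : ∑ j : Fin s, τ⁻¹ * t j.succ * (d 0 i : ℝ)
          = τ⁻¹ * (∑ j : Fin s, t j.succ) * d 0 i := by
        rw [Finset.mul_sum, Finset.sum_mul]
      have h3 : ∑ j : Fin s, τ⁻¹ * t j.succ * (d j.succ i : ℝ)
          = τ⁻¹ * ∑ j : Fin s, t j.succ * d j.succ i := by
        rw [Finset.mul_sum]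
        exact Finset.sum_congr rfl fun j _ => by ring
      have h4 : ∑ k, τ⁻¹ * q k * (u i k : ℝ) = τ⁻¹ * ∑ k, q k * u i k := by
        rw [Finset.mul_sum]
        exact Finset.sum_congr rfl fun j _ => by ring
      rw [h2, h3, h4]
      field_simp
      ring
    · rcases Fin.eq_zero_or_eq_succ j with rfl | ⟨j, rfl⟩
      · have h1 := sum_uu_zero (R := ℝ) u d
          (Fin.append (fun k => τ⁻¹ * q k) fun j : Fin s => τ⁻¹ * t j.succ)
        rw [h1]
        simp only [dx, Sum.elim_inr, Fin.append_right, Fin.cases_zero]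
        rw [hτs, ← Finset.mul_sum]
        push_cast
        field_simp
        ring
      · have h1 := sum_uu_succ (R := ℝ) u d
          (Fin.append (fun k => τ⁻¹ * q k) fun j : Fin s => τ⁻¹ * t j.succ) j
        rw [h1]
        simp only [dx, Sum.elim_inr, Fin.append_right, Fin.cases_succ]
        push_cast
        ring
  · have h1 := hn v
    beta_reduce at h1
    have h2 : ((0 : ℂ) - ∑ i, ((τ⁻¹ * (Sum.elim β t) i : ℝ) : ℂ) * HH Hc H i v v)
        = ((τ⁻¹ : ℝ) : ℂ) * (∑ j, (t j : ℂ) * H j v v - ∑ i, (β i : ℂ) * Hc i v v) := by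
      rw [Fintype.sum_sum_type]
      simp only [HH, Sum.elim_inl, Sum.elim_inr, mul_neg, Finset.sum_neg_distrib]
      push_cast
      simp only [mul_sub, Finset.mul_sum, mul_assoc]
      ring
    beta_reduce
    rw [h2, Complex.re_ofReal_mul]
    exact mul_nonneg (inv_nonneg.2 hτ.le) h1

omit [NormedAddCommGroup V] [NormedSpace ℂ V] in
/-- Sums of elements of the semigroup. -/
theorem mem_Q_comb {u : ι → Fin n → ℤ} {d : Fin (s + 1) → ι → ℤ} {H : Fin (s + 1) → V → V → ℂ}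
    {Hc : ι → V → V → ℂ} {p : ℕ} {T : Fin p → Fin (s + 1) → ℕ} {a : Fin p → ι → ℕ}
    (hQ : ∀ l, (T l, a l) ∈ Q u d H Hc) (μ : Fin p → ℕ) :
    ((fun j => ∑ l, μ l * T l j), fun i => ∑ l, μ l * a l i) ∈ Q u d H Hc := by
  choose q hq using fun l => (hQ l).1
  refine ⟨⟨fun k => ∑ l, μ l * q l k, fun i => ?_⟩, fun v => ?_⟩
  · push_cast
    have h1 : ∀ l, (a l i : ℤ) = ∑ j, (T l j : ℤ) * d j i + ∑ k, q l k * u i k := fun l => hq l i
    simp only [h1, mul_add, Finset.sum_add_distrib, Finset.sum_mul, Finset.mul_sum]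
    congr 1
    · rw [Finset.sum_comm]
      exact Finset.sum_congr rfl fun l _ => Finset.sum_congr rfl fun k _ => by ring
    · rw [Finset.sum_comm]
      exact Finset.sum_congr rfl fun l _ => Finset.sum_congr rfl fun k _ => by ring
  · have h1 : ∑ j, ((∑ l, μ l * T l j : ℕ) : ℂ) * H j v v
        - ∑ i, ((∑ l, μ l * a l i : ℕ) : ℂ) * Hc i v v
        = ∑ l, ((μ l : ℝ) : ℂ) * (∑ j, (T l j : ℂ) * H j v v - ∑ i, (a l i : ℂ) * Hc i v v) := by
      push_cast
      simp only [mul_sub, Finset.sum_sub_distrib, Finset.sum_mul, Finset.mul_sum]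
      congr 1
      · rw [Finset.sum_comm]
        exact Finset.sum_congr rfl fun l _ => Finset.sum_congr rfl fun k _ => by ring
      · rw [Finset.sum_comm]
        exact Finset.sum_congr rfl fun l _ => Finset.sum_congr rfl fun k _ => by ring
    beta_reduce
    rw [h1, Complex.re_sum]
    refine Finset.sum_nonneg fun l _ => ?_
    rw [Complex.re_ofReal_mul]
    exact mul_nonneg (Nat.cast_nonneg _) ((hQ l).2 v)

omit [NormedAddCommGroup V] [NormedSpace ℂ V] in
/-- Real combinations of elements of the semigroup. -/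
theorem mem_P_comb {u : ι → Fin n → ℤ} {d : Fin (s + 1) → ι → ℤ} {H : Fin (s + 1) → V → V → ℂ}
    {Hc : ι → V → V → ℂ} {p : ℕ} {T : Fin p → Fin (s + 1) → ℕ} {a : Fin p → ι → ℕ}
    (hQ : ∀ l, (T l, a l) ∈ Q u d H Hc) {r : Fin p → ℝ} (hr : ∀ l, 0 ≤ r l) :
    (fun i => ∑ l, r l * a l i) ∈ P u d H Hc fun j => ∑ l, r l * T l j := by
  choose q hq using fun l => (hQ l).1
  refine ⟨fun i => Finset.sum_nonneg fun l _ => mul_nonneg (hr l) (Nat.cast_nonneg _),
    ⟨fun k => ∑ l, r l * q l k, fun i => ?_⟩, fun v => ?_⟩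
  · have h1 : ∀ l, (a l i : ℝ) = ∑ j, (T l j : ℝ) * d j i + ∑ k, (q l k : ℝ) * u i k := fun l => by
      exact_mod_cast hq l i
    simp only [h1, mul_add, Finset.sum_add_distrib, Finset.sum_mul, Finset.mul_sum]
    congr 1
    · rw [Finset.sum_comm]
      exact Finset.sum_congr rfl fun l _ => Finset.sum_congr rfl fun k _ => by ring
    · rw [Finset.sum_comm]
      exact Finset.sum_congr rfl fun l _ => Finset.sum_congr rfl fun k _ => by ring
  · have h1 : ∑ j, ((∑ l, r l * T l j : ℝ) : ℂ) * H j v v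
        - ∑ i, ((∑ l, r l * a l i : ℝ) : ℂ) * Hc i v v
        = ∑ l, ((r l : ℝ) : ℂ) * (∑ j, (T l j : ℂ) * H j v v - ∑ i, (a l i : ℂ) * Hc i v v) := by
      push_cast
      simp only [mul_sub, Finset.sum_sub_distrib, Finset.sum_mul, Finset.mul_sum]
      congr 1
      · rw [Finset.sum_comm]
        exact Finset.sum_congr rfl fun l _ => Finset.sum_congr rfl fun k _ => by ring
      · rw [Finset.sum_comm]
        exact Finset.sum_congr rfl fun l _ => Finset.sum_congr rfl fun k _ => by ring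
    beta_reduce
    rw [h1, Complex.re_sum]
    refine Finset.sum_nonneg fun l _ => ?_
    rw [Complex.re_ofReal_mul]
    exact mul_nonneg (hr l) ((hQ l).2 v)

/-- The factor of automorphy of `∏ L_j ^ t_j ∏ c_i ^ (- α_i)`. -/
noncomputable def eb (c : ι → LineBundle Γ) (L : Fin (s + 1) → LineBundle Γ) (t : Fin (s + 1) → ℕ)
    (α : ι → ℕ) (γ : Γ) (v : V) : ℂ :=
  (∏ j, (L j).e γ v ^ t j) * (∏ i, (c i).e γ v ^ α i)⁻¹

theorem eb_comb (c : ι → LineBundle Γ) (L : Fin (s + 1) → LineBundle Γ) {p : ℕ}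
    (T : Fin p → Fin (s + 1) → ℕ) (a : Fin p → ι → ℕ) (μ : Fin p → ℕ) (γ : Γ) (v : V) :
    eb c L (fun j => ∑ l, μ l * T l j) (fun i => ∑ l, μ l * a l i) γ v
      = ∏ l, eb c L (T l) (a l) γ v ^ μ l := by
  simp only [eb, mul_pow, Finset.prod_mul_distrib, inv_pow, Finset.prod_inv_distrib]
  congr 1
  · simp only [← Finset.prod_pow_eq_pow_sum, ← Finset.prod_pow]
    rw [Finset.prod_comm]
    exact Finset.prod_congr rfl fun l _ => Finset.prod_congr rfl fun j _ => by
      rw [← pow_mul, mul_comm]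
  · congr 1
    simp only [← Finset.prod_pow_eq_pow_sum, ← Finset.prod_pow]
    rw [Finset.prod_comm]
    exact Finset.prod_congr rfl fun l _ => Finset.prod_congr rfl fun j _ => by
      rw [← pow_mul, mul_comm]

/-- Monomials are sections. -/
theorem isSection_eb {u : ι → Fin n → ℤ} {d : Fin (s + 1) → ι → ℤ} {c : ι → LineBundle Γ}
    {L : Fin (s + 1) → LineBundle Γ} {t : Fin (s + 1) → ℕ} {α : ι → ℕ}
    (h : LinEquiv u (fun i => (α i : ℤ)) fun i => ∑ j, (t j : ℤ) * d j i) (N : ℕ) {f : V → ℂ}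
    (hf : Differentiable ℂ f)
    (hfe : ∀ (γ : Γ) (v : V), f ((γ : V ≃ᵃ[ℂ] V) v) = eb c L t α γ v ^ N * f v) :
    IsSection u c (fun i => N * ∑ j, (t j : ℤ) * d j i) (fun γ v => (∏ j, (L j).e γ v ^ t j) ^ N)
      fun v => monomial (Finsupp.equivFunOnFinite.symm fun i => N * α i) (f v) := by
  classical
  refine ⟨fun β => ?_, fun v β hβ => ?_, fun γ v x => ?_⟩
  · simp only [coeff_monomial]
    split_ifs
    · exact hf
    · exact differentiable_const _
  · rw [mem_support_iff, coeff_monomial] at hβ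
    split_ifs at hβ with h1
    · subst h1
      obtain ⟨q, hq⟩ := h
      refine ⟨fun k => N * q k, fun i => ?_⟩
      have h2 : (α i : ℤ) = ∑ j, (t j : ℤ) * d j i + ∑ k, q k * u i k := hq i
      simp only [Finsupp.equivFunOnFinite_symm_apply_apply]
      push_cast
      rw [h2, mul_add, Finset.mul_sum]
      congr 1
      rw [Finset.mul_sum]
      exact Finset.sum_congr rfl fun k _ => by ring
    · exact absurd rfl hβ
  · rw [eval_monomial, eval_monomial, Finsupp.prod_fintype _ _ fun i => pow_zero _,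
      Finsupp.prod_fintype _ _ fun i => pow_zero _]
    simp only [Finsupp.equivFunOnFinite_symm_apply_apply]
    rw [hfe γ v]
    simp only [mul_pow, Finset.prod_mul_distrib, eb]
    have h1 : (∏ i, (c i).e γ v ^ α i) ≠ 0 :=
      Finset.prod_ne_zero_iff.2 fun i _ => pow_ne_zero _ ((c i).ne_zero γ v)
    have h2 : ∏ i, (c i).e γ v ^ (N * α i) = (∏ i, (c i).e γ v ^ α i) ^ N := by
      rw [← Finset.prod_pow]
      exact Finset.prod_congr rfl fun i _ => by rw [← pow_mul, mul_comm]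
    rw [h2, inv_pow]
    field_simp

end Q47.GEO
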